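import Pool.Agent.V11191.Knight.Ae

/-!
# Second moment estimate for the sampled walk
-/

open Set MeasureTheory Filter Topology ProbabilityTheory
open scoped NNReal ENNReal
open Pool.Agent.V11191.Span

namespace Pool.Agent.V11191.Knight

lemma meas_st (a : ℝ) : Measurable (fun q : (ℤ × ℕ) × ℝ => st a q.1 q.2) := by
  have h1 : Measurable (fun q : (ℤ × ℕ) × ℝ => q.2 - a * (q.1.1 : ℝ)) := by
    have : Measurable (fun q : (ℤ × ℕ) × ℝ => (q.1.1 : ℝ)) :=
      (Measurable.of_discrete (f := fun n : ℤ => (n : ℝ))).comp (measurable_fst.comp measurable_fst)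
    exact measurable_snd.sub (this.const_mul a)
  have h2 : ∀ g : ℤ × ℕ → ℤ × ℕ, Measurable (fun q : (ℤ × ℕ) × ℝ => g q.1) := fun g =>
    (Measurable.of_discrete (f := g)).comp measurable_fst
  unfold st
  refine Measurable.ite (measurableSet_le measurable_const h1) (h2 fun p => (p.1 + 1, p.2 + 1)) ?_
  exact Measurable.ite (measurableSet_le h1 measurable_const) (h2 fun p => (p.1 - 1, p.2 + 1)) (h2 fun p => p)

lemma meas_hs {Ω' : Type*} [MeasurableSpace Ω'] (a : ℝ) (X : ℕ → Ω' → ℝ) (j : ℕ)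
    (hX : ∀ i ≤ j, Measurable (X i)) : Measurable (fun ω => hs a (fun i => X i ω) j) := by
  induction j with
  | zero => exact measurable_const
  | succ j ih =>
    have h1 := ih fun i hi => hX i (hi.trans (Nat.le_succ j))
    exact (meas_st a).comp (h1.prodMk (hX (j+1) le_rfl))

/-- clamped displacement -/
noncomputable def HH {Ω' : Type*} (a : ℝ) (X : ℕ → Ω' → ℝ) (j : ℕ) (ω : Ω') : ℝ :=
  2 * max (-a) (min a (X j ω - a * (hs a (fun i => X i ω) j).1))

lemma meas_HH {Ω' : Type*} [MeasurableSpace Ω'] (a : ℝ) (X : ℕ → Ω' → ℝ) (j : ℕ)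
    (hX : ∀ i ≤ j, Measurable (X i)) : Measurable (HH a X j) := by
  have h1 := meas_hs a X j hX
  have h2 : Measurable (fun ω => ((hs a (fun i => X i ω) j).1 : ℝ)) :=
    (Measurable.of_discrete (f := fun p : ℤ × ℕ => (p.1 : ℝ))).comp h1
  unfold HH
  have h3 := hX j le_rfl
  exact (measurable_const.max (measurable_const.min (h3.sub (h2.const_mul a)))).const_mul 2

lemma abs_HH_le {Ω' : Type*} {a : ℝ} (ha : 0 < a) (X : ℕ → Ω' → ℝ) (j : ℕ) (ω : Ω') :
    |HH a X j ω| ≤ 2 * a := by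
  unfold HH
  rw [abs_mul, abs_of_pos (by norm_num : (0:ℝ) < 2)]
  refine mul_le_mul_of_nonneg_left ?_ (by norm_num)
  rw [abs_le]
  exact ⟨le_max_left _ _, max_le (by linarith) (min_le_left _ _)⟩

variable {Ω : Type*} [mΩ : MeasurableSpace Ω] {P : Measure Ω}

/-- the past -/
@[instance_reducible] def mF (V : ℝ≥0 → Ω → ℝ) (t : ℝ≥0) : MeasurableSpace Ω :=
  MeasurableSpace.comap (fun ω (s : Iic t) => V s ω) inferInstance

omit mΩ in
lemma mF_meas (V : ℝ≥0 → Ω → ℝ) {s t : ℝ≥0} (h : s ≤ t) : Measurable[mF V t] (V s) := by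
  have h1 : Measurable[mF V t] (fun ω (s : Iic t) => V s ω) := comap_measurable _
  exact (measurable_pi_apply (⟨s, h⟩ : Iic t)).comp h1

lemma mF_le {V : ℝ≥0 → Ω → ℝ} (hm : ∀ t, Measurable (V t)) (t : ℝ≥0) : mF V t ≤ mΩ := by
  refine Measurable.comap_le ?_
  exact measurable_pi_lambda _ fun s => hm s

lemma ind_fut {V : ℝ≥0 → Ω → ℝ} (hB : IsPreBrownianReal V P) (t₀ t : ℝ≥0) {U : Ω → ℝ}
    (hU : Measurable[mF V t₀] U) : IndepFun U (fun ω => V (t₀ + t) ω - V t₀ ω) P := by
  have h1 := (hB.indepFun_shift t₀).symm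
  have h2 := h1.comp measurable_id (measurable_pi_apply t)
  rw [IndepFun_iff_Indep] at h2 ⊢
  exact indep_of_indep_of_le_left h2 hU.comap_le

/-- the fourth moment type constant -/
noncomputable def cst : ℝ := ∫ x, (x^2 - 1)^2 ∂(gaussianReal 0 1)

lemma cst_nonneg : 0 ≤ cst := integral_nonneg fun _ => sq_nonneg _

lemma gauss_scale (f : ℝ → ℝ) (hf : Measurable f) (v : ℝ≥0) :
    ∫ x, f x ∂(gaussianReal 0 v) = ∫ x, f (√v * x) ∂(gaussianReal 0 1) := by
  have h := gaussianReal_map_const_mul (μ := 0) (v := 1) (√v)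
  have e : (NNReal.mk ((√(v:ℝ))^2) (sq_nonneg _) * 1 : ℝ≥0) = v := by
    apply NNReal.coe_injective
    rw [mul_one]
    show (√(v:ℝ))^2 = v
    exact Real.sq_sqrt (NNReal.coe_nonneg v)
  rw [mul_zero, e] at h
  rw [← h, integral_map (by fun_prop) hf.aestronglyMeasurable]

lemma int_sq (v : ℝ≥0) : ∫ x, (x^2 - v) ∂(gaussianReal 0 v) = 0 := by
  have h1 : ∫ x, x^2 ∂(gaussianReal 0 v) = v := by
    have h2 := variance_id_gaussianReal (μ := 0) (v := v)
    rw [variance_eq_integral (by fun_prop)] at h2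
    simpa using h2
  have hint : Integrable (fun x : ℝ => x^2) (gaussianReal 0 v) := by
    have := (memLp_id_gaussianReal (μ := 0) (v := v) 2).integrable_sq
    simpa using this
  rw [integral_sub hint (integrable_const _), h1]
  simp

lemma int_four (v : ℝ≥0) : ∫ x, (x^2 - v)^2 ∂(gaussianReal 0 v) = cst * v^2 := by
  rw [gauss_scale _ (by fun_prop)]
  have : ∀ x : ℝ, ((√v * x)^2 - v)^2 = (x^2 - 1)^2 * (v:ℝ)^2 := by
    intro x
    rw [mul_pow, Real.sq_sqrt (NNReal.coe_nonneg v)]; ring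
  simp_rw [this]
  rw [integral_mul_const]; rfl

section

variable {V : ℝ≥0 → Ω → ℝ} (δ : ℝ≥0)

/-- sampled path -/
def XX (V : ℝ≥0 → Ω → ℝ) (δ : ℝ≥0) (j : ℕ) (ω : Ω) : ℝ := V (j * δ) ω

/-- increments -/
def DL (V : ℝ≥0 → Ω → ℝ) (δ : ℝ≥0) (j : ℕ) (ω : Ω) : ℝ := V (j * δ + δ) ω - V (j * δ) ω

/-- one term -/
noncomputable def DD (V : ℝ≥0 → Ω → ℝ) (δ : ℝ≥0) (a : ℝ) (j : ℕ) (ω : Ω) : ℝ :=
  HH a (XX V δ) j ω * DL V δ j ω + (DL V δ j ω ^ 2 - δ)

/-- the sum -/
noncomputable def SS (V : ℝ≥0 → Ω → ℝ) (δ : ℝ≥0) (a : ℝ) (m : ℕ) (ω : Ω) : ℝ :=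
  ∑ j ∈ Finset.range m, DD V δ a j ω

lemma law_DL (hB : IsPreBrownianReal V P) (j : ℕ) : HasLaw (DL V δ j) (gaussianReal 0 δ) P := by
  have := hB.hasLaw_sub (j * δ + δ) (j * δ)
  have e : nndist ((j * δ + δ : ℝ≥0)).1 (j * δ : ℝ≥0).1 = δ := by
    apply NNReal.coe_injective
    rw [coe_nndist, Real.dist_eq]
    show |((j * δ + δ : ℝ≥0) : ℝ) - ((j * δ : ℝ≥0) : ℝ)| = δ
    push_cast
    rw [add_sub_cancel_left, abs_of_nonneg (NNReal.coe_nonneg δ)]
  rw [e] at this
  exact this

omit mΩ in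
lemma meas_HHm (V : ℝ≥0 → Ω → ℝ) (a : ℝ) (j : ℕ) :
    Measurable[mF V (j * δ)] (HH a (XX V δ) j) := by
  refine @meas_HH Ω (mF V (j * δ)) a (XX V δ) j fun i hi => ?_
  refine mF_meas V ?_
  have : (i : ℝ≥0) ≤ j := by exact_mod_cast hi
  gcongr

lemma meas_DL (hm : ∀ t, Measurable (V t)) (j : ℕ) : Measurable (DL V δ j) :=
  (hm _).sub (hm _)

omit mΩ in
lemma mF_mono (V : ℝ≥0 → Ω → ℝ) {s t : ℝ≥0} (h : s ≤ t) : mF V s ≤ mF V t := by
  unfold mF
  rw [← measurable_iff_comap_le]
  exact @measurable_pi_lambda _ _ _ (mF V t) _ _ fun r => mF_meas V (le_trans r.2 h)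

theorem l2 (hm : ∀ t, Measurable (V t)) (hB : IsPreBrownianReal V P) {a : ℝ} (ha : 0 < a) (m : ℕ) :
    Measurable[mF V (m * δ)] (SS V δ a m) ∧ MemLp (SS V δ a m) 2 P ∧
      ∫ ω, (SS V δ a m ω)^2 ∂P ≤ m * (8 * a^2 * δ + 2 * cst * δ^2) := by
  have hP : IsProbabilityMeasure P := hB.isGaussianProcess.isProbabilityMeasure
  induction m with
  | zero =>
    have e : SS V δ a 0 = fun _ => 0 := by funext ω; simp [SS]
    rw [e]
    refine ⟨measurable_const, MemLp.zero' , by simp⟩
  | succ m ih =>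
    obtain ⟨ih1, ih2, ih3⟩ := ih
    have hS : SS V δ a (m + 1) = fun ω => SS V δ a m ω + DD V δ a m ω := by
      funext ω; unfold SS; rw [Finset.sum_range_succ]
    have hHm := meas_HHm δ V a m
    have hHM : Measurable (HH a (XX V δ) m) := hHm.mono (mF_le hm _) le_rfl
    have hDLM := meas_DL δ hm m
    have hSM : Measurable (SS V δ a m) := ih1.mono (mF_le hm _) le_rfl
    have hlaw := law_DL δ hB m
    have hG : HasGaussianLaw (DL V δ m) P := by
      have := hlaw.hasGaussianLaw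
      exact this
    have hL2 : MemLp (DL V δ m) 2 P := hG.memLp_two
    have hL4 : MemLp (DL V δ m) (4 : ℕ) P := hG.memLp (by norm_num)
    have hsq2 : MemLp (fun ω => DL V δ m ω ^ 2) 2 P := by
      rw [memLp_two_iff_integrable_sq (hDLM.pow_const 2).aestronglyMeasurable]
      have := hL4.integrable_norm_pow (by norm_num)
      refine this.congr (Eventually.of_forall fun ω => ?_)
      simp only [Real.norm_eq_abs]
      rw [← pow_mul]
      norm_num
      exact (Even.pow_abs (by decide) _)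
    have hQ : MemLp (fun ω => DL V δ m ω ^ 2 - (δ:ℝ)) 2 P := hsq2.sub (memLp_const _)
    have hHD : MemLp (fun ω => HH a (XX V δ) m ω * DL V δ m ω) 2 P := by
      refine MemLp.of_le (hL2.const_mul (2 * a)) (hHM.mul hDLM).aestronglyMeasurable
        (Eventually.of_forall fun ω => ?_)
      rw [norm_mul, norm_mul]
      refine mul_le_mul_of_nonneg_right ?_ (norm_nonneg _)
      rw [Real.norm_eq_abs, Real.norm_eq_abs, abs_of_pos (show 0 < 2 * a by positivity)]
      exact abs_HH_le ha _ _ _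
    have hD : MemLp (DD V δ a m) 2 P := hHD.add hQ
    have h0 : ∫ ω, DL V δ m ω ∂P = 0 := by
      have := hlaw.integral_comp (f := fun x => x) (by fun_prop)
      simp only [Function.comp_def] at this
      rw [this]; exact integral_id_gaussianReal
    have h00 : ∫ ω, (DL V δ m ω ^ 2 - (δ:ℝ)) ∂P = 0 := by
      have := hlaw.integral_comp (f := fun x => x^2 - (δ:ℝ)) (by fun_prop)
      simp only [Function.comp_def] at this
      rw [this]; exact int_sq δ
    have h4 : ∫ ω, (DL V δ m ω ^ 2 - (δ:ℝ))^2 ∂P = cst * δ^2 := by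
      have := hlaw.integral_comp (f := fun x => (x^2 - (δ:ℝ))^2) (by fun_prop)
      simp only [Function.comp_def] at this
      rw [this]; exact int_four δ
    have h2 : ∫ ω, (DL V δ m ω) ^ 2 ∂P = δ := by
      have := integral_sub (μ := P) (hL2.integrable_sq) (integrable_const (δ:ℝ))
      rw [h00] at this
      simp at this
      linarith
    -- cross term
    have hcross : ∫ ω, SS V δ a m ω * DD V δ a m ω ∂P = 0 := by
      have e : ∀ ω, SS V δ a m ω * DD V δ a m ω =
          (SS V δ a m ω * HH a (XX V δ) m ω) * DL V δ m ω + SS V δ a m ω * (DL V δ m ω ^ 2 - δ) := by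
        intro ω; unfold DD; ring
      simp_rw [e]
      rw [integral_add]
      · have i1 : IndepFun (fun ω => SS V δ a m ω * HH a (XX V δ) m ω) (DL V δ m) P :=
          ind_fut hB (m * δ) δ (ih1.mul hHm)
        have i2 : IndepFun (SS V δ a m) (DL V δ m) P := ind_fut hB (m * δ) δ ih1
        have i3 : IndepFun (SS V δ a m) (fun ω => DL V δ m ω ^ 2 - (δ:ℝ)) P :=
          i2.comp (ψ := fun x => x^2 - (δ:ℝ)) measurable_id (by fun_prop)
        rw [i1.integral_fun_mul_eq_mul_integral (hSM.mul hHM).aestronglyMeasurable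
          hDLM.aestronglyMeasurable, h0,
          i3.integral_fun_mul_eq_mul_integral hSM.aestronglyMeasurable
          ((hDLM.pow_const 2).sub_const _).aestronglyMeasurable, h00]
        ring
      · have := ih2.integrable_mul hHD
        refine this.congr (Eventually.of_forall fun ω => ?_)
        simp only [Pi.mul_apply]; ring
      · exact ih2.integrable_mul hQ
    refine ⟨?_, ?_, ?_⟩
    · rw [hS]
      have hle : mF V (m * δ) ≤ mF V ((m + 1 : ℕ) * δ) := by
        refine mF_mono V ?_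
        push_cast; gcongr; simp
      have e1 := ih1.mono hle le_rfl
      have e2 := hHm.mono hle le_rfl
      have e3 : Measurable[mF V ((m + 1 : ℕ) * δ)] (DL V δ m) := by
        refine Measurable.sub (mF_meas V ?_) (mF_meas V ?_)
        · push_cast; rw [add_mul, one_mul]
        · push_cast; rw [add_mul, one_mul]; simp
      exact e1.add ((e2.mul e3).add ((e3.pow_const 2).sub_const _))
    · rw [hS]; exact ih2.add hD
    · rw [hS]
      have e : ∀ ω, (SS V δ a m ω + DD V δ a m ω)^2 =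
          SS V δ a m ω ^ 2 + (2 * (SS V δ a m ω * DD V δ a m ω) + DD V δ a m ω ^ 2) := by
        intro ω; ring
      simp_rw [e]
      have j1 : Integrable (fun ω => 2 * (SS V δ a m ω * DD V δ a m ω)) P :=
        (ih2.integrable_mul hD).const_mul 2
      have k1 : ∫ ω, (SS V δ a m ω ^ 2 + (2 * (SS V δ a m ω * DD V δ a m ω) + DD V δ a m ω ^ 2)) ∂P =
          ∫ ω, SS V δ a m ω ^ 2 ∂P + ∫ ω, (2 * (SS V δ a m ω * DD V δ a m ω) + DD V δ a m ω ^ 2) ∂P :=
        integral_add ih2.integrable_sq (j1.add hD.integrable_sq)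
      have k2 : ∫ ω, (2 * (SS V δ a m ω * DD V δ a m ω) + DD V δ a m ω ^ 2) ∂P =
          ∫ ω, 2 * (SS V δ a m ω * DD V δ a m ω) ∂P + ∫ ω, DD V δ a m ω ^ 2 ∂P :=
        integral_add j1 hD.integrable_sq
      rw [k1, k2, integral_const_mul, hcross, mul_zero, zero_add]
      have hDsq : ∫ ω, DD V δ a m ω ^ 2 ∂P ≤ 8 * a^2 * δ + 2 * cst * δ^2 := by
        calc ∫ ω, DD V δ a m ω ^ 2 ∂P
            ≤ ∫ ω, (8 * a^2 * DL V δ m ω ^ 2 + 2 * (DL V δ m ω ^ 2 - δ)^2) ∂P := by
              refine integral_mono hD.integrable_sq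
                ((hL2.integrable_sq.const_mul _).add (hQ.integrable_sq.const_mul _)) fun ω => ?_
              simp only
              have h5 : HH a (XX V δ) m ω ^ 2 ≤ (2 * a)^2 := by
                rw [← sq_abs]
                exact pow_le_pow_left₀ (abs_nonneg _) (abs_HH_le ha _ _ _) 2
              have h6 : HH a (XX V δ) m ω ^ 2 * DL V δ m ω ^ 2 ≤ (2 * a)^2 * DL V δ m ω ^ 2 :=
                mul_le_mul_of_nonneg_right h5 (sq_nonneg _)
              unfold DD
              nlinarith [sq_nonneg (HH a (XX V δ) m ω * DL V δ m ω - (DL V δ m ω ^ 2 - δ))]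
          _ = 8 * a^2 * δ + 2 * cst * δ^2 := by
              rw [integral_add (hL2.integrable_sq.const_mul _) (hQ.integrable_sq.const_mul _),
                integral_const_mul, integral_const_mul, h2, h4]
              ring
      push_cast
      linarith

end

end Pool.Agent.V11191.Knight
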