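import Pool.Agent.V11191.Knight.Track
import Pool.Agent.V11191.Span.Prob3

/-!
# Almost sure properties of Brownian paths needed for Knight's walks
-/

open Set MeasureTheory Filter Topology ProbabilityTheory
open scoped NNReal ENNReal
open Pool.Agent.V11191.Span

namespace Pool.Agent.V11191.Knight

variable {Ω : Type*} [mΩ : MeasurableSpace Ω] {P : Measure Ω}

/-- the minimum over an interval away from `0` has no atoms -/
lemma lvl_null {V : ℝ≥0 → Ω → ℝ} (hm : ∀ t, Measurable (V t)) (hc : ∀ ω, Continuous (V · ω))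
    (hB : IsPreBrownianReal V P) {p q : ℝ} (hp : 0 < p) (hpq : p ≤ q) (c : ℝ) :
    P {ω | sInf (pth V ω '' Icc p q) = c} = 0 := by
  obtain ⟨P', hP'⟩ : ∃ P' : ℝ≥0, (P' : ℝ) = p := ⟨Real.toNNReal p, Real.coe_toNNReal _ hp.le⟩
  have hval : ∀ t : ℝ, sh {P'} (fun _ => 1) t.toNNReal = min p (max t 0) := by
    intro t
    unfold sh
    rw [Finset.sum_singleton, one_mul, NNReal.coe_min, Real.coe_toNNReal', hP']
  refine qi (A := fun w => sInf (w '' Icc p q) = c) hm hc hB {P'} (fun _ => 1) ⟨P', ?_⟩ ?_ ?_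
  · unfold sh
    rw [Finset.sum_singleton, one_mul, min_self, hP']; exact hp.ne'
  · intro Ω' _ X hX
    exact measurableSet_eq_fun (meas_min hX hpq) measurable_const
  · intro w hw
    have h1 : ∀ t ∈ Icc p q, sh {P'} (fun _ => 1) t.toNNReal = p := by
      intro t ht
      rw [hval, max_eq_left (hp.le.trans ht.1), min_eq_left ht.1]
    have h3 : {l : ℝ | sInf ((fun t => w t + l * sh {P'} (fun _ => 1) t.toNNReal) '' Icc p q) = c} ⊆
        {(c - sInf (w '' Icc p q)) / p} := by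
      intro l hl
      simp only [mem_ofPred_eq] at hl
      rw [sInf_image_shift hw hpq l h1] at hl
      rw [mem_singleton_iff, eq_div_iff hp.ne']
      linarith
    exact measure_mono_null h3 (by simp)

/-- no rational interval has its minimum on the lattice -/
def NoLat (w : ℝ → ℝ) (a : ℝ) : Prop :=
  ∀ p q : ℚ, 0 < p → p ≤ q → ∀ c : ℤ, sInf (w '' Icc (p:ℝ) q) ≠ a * c

lemma noLat_ae {V : ℝ≥0 → Ω → ℝ} (hm : ∀ t, Measurable (V t)) (hc : ∀ ω, Continuous (V · ω))
    (hB : IsPreBrownianReal V P) (a : ℝ) : ∀ᵐ ω ∂P, NoLat (pth V ω) a := by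
  unfold NoLat
  rw [ae_all_iff]; intro p
  rw [ae_all_iff]; intro q
  by_cases h : 0 < p ∧ p ≤ q
  swap
  · exact Eventually.of_forall fun ω h1 h2 => absurd ⟨h1, h2⟩ h
  have h5 : ∀ᵐ ω ∂P, ∀ c : ℤ, sInf (pth V ω '' Icc (p:ℝ) q) ≠ a * c := by
    rw [ae_all_iff]; intro c
    rw [ae_iff]
    have := lvl_null hm hc hB (p := p) (q := q) (by exact_mod_cast h.1) (by exact_mod_cast h.2)
      (a * c)
    simpa using this
  filter_upwards [h5] with ω hω _ _ using hω

lemma exceed_of {w : ℝ → ℝ} {a : ℝ} {τ : ℕ → ℝ} {z : ℕ → ℤ} (h : KW w a τ z)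
    (h1 : NoLat w a) (h2 : NoLat (fun t => - w t) a) : Exceed w a τ z := by
  intro k ε hε
  by_contra hcon
  push Not at hcon
  obtain ⟨p, hp1, hp2⟩ := exists_rat_btwn (h.lt k)
  obtain ⟨q, hq1, hq2⟩ := exists_rat_btwn (show τ (k+1) < τ (k+1) + ε by linarith)
  have hp0 : (0:ℝ) < p := lt_of_le_of_lt (h.nonneg k) hp1
  have hpq : (p:ℝ) ≤ q := by linarith
  have hmem : τ (k+1) ∈ Icc (p:ℝ) q := ⟨hp2.le, hq1.le⟩
  have hall : ∀ r ∈ Icc (p:ℝ) q, |w r - a * z k| ≤ a := by
    intro r hr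
    rcases lt_trichotomy r (τ (k+1)) with h3 | h3 | h3
    · exact (h.stay k r (by linarith [hr.1]) h3).le
    · rw [h3, h.lev, ← mul_sub, abs_mul, abs_of_pos h.pos]
      have : |((z (k+1) : ℝ) - z k)| = 1 := by
        rcases h.step k with h4 | h4
        · have : ((z (k+1) : ℝ) - z k) = 1 := by exact_mod_cast h4
          rw [this]; simp
        · have : ((z (k+1) : ℝ) - z k) = -1 := by exact_mod_cast h4
          rw [this]; simp
      rw [this, mul_one]
    · exact hcon r h3 (by linarith [hr.2])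
  rcases h.step k with h4 | h4
  · have e : (z (k+1) : ℝ) = z k + 1 := by
      have : ((z (k+1) : ℝ) - z k) = 1 := by exact_mod_cast h4
      linarith
    refine h2 p q (by exact_mod_cast hp0) (by exact_mod_cast hpq) (- z (k+1)) ?_
    refine IsLeast.csInf_eq ⟨⟨τ (k+1), hmem, ?_⟩, ?_⟩
    · show - w (τ (k+1)) = _
      rw [h.lev]; push_cast; ring
    · rintro _ ⟨r, hr, rfl⟩
      have := (abs_le.1 (hall r hr)).2
      show a * ((-z (k+1) : ℤ) : ℝ) ≤ - w r
      push_cast; rw [e]; linarith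
  · have e : (z (k+1) : ℝ) = z k - 1 := by
      have : ((z (k+1) : ℝ) - z k) = -1 := by exact_mod_cast h4
      linarith
    refine h1 p q (by exact_mod_cast hp0) (by exact_mod_cast hpq) (z (k+1)) ?_
    refine IsLeast.csInf_eq ⟨⟨τ (k+1), hmem, ?_⟩, ?_⟩
    · rw [h.lev]
    · rintro _ ⟨r, hr, rfl⟩
      have := (abs_le.1 (hall r hr)).1
      rw [e]; linarith

lemma gauss_small (v : ℝ≥0) (hv : v ≠ 0) {M : ℝ} (_hM : 0 ≤ M) :
    gaussianReal 0 v (Icc (-M) M) ≤ ENNReal.ofReal ((√(2 * Real.pi * v))⁻¹ * (2 * M)) := by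
  rw [gaussianReal_apply 0 hv]
  calc ∫⁻ x in Icc (-M) M, gaussianPDF 0 v x
      ≤ ∫⁻ _ in Icc (-M) M, ENNReal.ofReal ((√(2 * Real.pi * v))⁻¹) := by
        refine lintegral_mono fun x => ?_
        unfold gaussianPDF gaussianPDFReal
        refine ENNReal.ofReal_le_ofReal ?_
        refine mul_le_of_le_one_right (by positivity) ?_
        rw [Real.exp_le_one_iff]
        have : 0 ≤ (x - 0)^2 / (2 * (v:ℝ)) := by positivity
        rw [neg_div]; linarith
    _ = ENNReal.ofReal ((√(2 * Real.pi * v))⁻¹) * ENNReal.ofReal (2 * M) := by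
        rw [setLIntegral_const, Real.volume_Icc]; congr 2; ring
    _ = _ := by rw [← ENNReal.ofReal_mul (by positivity)]

lemma unb_ae {V : ℝ≥0 → Ω → ℝ} (hm : ∀ t, Measurable (V t)) (hB : IsPreBrownianReal V P) :
    ∀ᵐ ω ∂P, Unb (pth V ω) := by
  have key : ∀ M : ℕ, ∀ᵐ ω ∂P, ∃ t, 0 ≤ t ∧ (M:ℝ) < |pth V ω t| := by
    intro M
    rw [ae_iff]
    have hb : ∀ v : ℝ≥0, v ≠ 0 → P {ω | ¬ ∃ t, 0 ≤ t ∧ (M:ℝ) < |pth V ω t|} ≤
        ENNReal.ofReal ((√(2 * Real.pi * v))⁻¹ * (2 * M)) := by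
      intro v hv
      refine le_trans ?_ (gauss_small v hv (Nat.cast_nonneg M))
      rw [← (hB.hasLaw_eval v).map_eq, Measure.map_apply (hm v) measurableSet_Icc]
      refine measure_mono fun ω hω => ?_
      simp only [mem_ofPred_eq, not_exists, not_and, not_lt] at hω
      have := hω v v.2
      unfold pth at this
      rw [Real.toNNReal_coe] at this
      exact abs_le.1 this
    have hlim : Tendsto (fun n : ℕ => ENNReal.ofReal ((√(2 * Real.pi * ((n + 1 : ℕ) : ℝ≥0)))⁻¹ * (2 * M)))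
        atTop (𝓝 0) := by
      rw [← ENNReal.ofReal_zero]
      refine ENNReal.tendsto_ofReal ?_
      rw [← zero_mul (2 * (M:ℝ))]
      refine Tendsto.mul_const _ ?_
      refine Tendsto.inv_tendsto_atTop ?_
      refine Real.tendsto_sqrt_atTop.comp ?_
      refine Tendsto.const_mul_atTop (by positivity) ?_
      simp only [NNReal.coe_natCast]
      exact tendsto_natCast_atTop_atTop.comp (tendsto_add_atTop_nat 1)
    exact le_antisymm (ge_of_tendsto hlim (Eventually.of_forall fun n => hb _ (by positivity))) bot_le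
  have h2 : ∀ᵐ ω ∂P, ∀ M : ℕ, ∃ t, 0 ≤ t ∧ (M:ℝ) < |pth V ω t| := ae_all_iff.2 key
  filter_upwards [h2] with ω hω M
  obtain ⟨n, hn⟩ := exists_nat_gt M
  obtain ⟨t, h3, h4⟩ := hω n
  exact ⟨t, h3, hn.trans h4⟩

end Pool.Agent.V11191.Knight
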