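import Pool.Agent.V11191.Knight.L2

/-!
# The number of steps of Knight's walk is close to the elapsed time
-/

open Set MeasureTheory Filter Topology ProbabilityTheory
open scoped NNReal ENNReal
open Pool.Agent.V11191.Span

namespace Pool.Agent.V11191.Knight

variable {Ω : Type*} [mΩ : MeasurableSpace Ω] {P : Measure Ω} {V : ℝ≥0 → Ω → ℝ}

lemma bad1 (hm : ∀ t, Measurable (V t)) (hB : IsPreBrownianReal V P) {a T η : ℝ} (ha : 0 < a)
    (hT : 0 < T) (hη : 0 < η) :
    P {ω | ∀ᶠ m : ℕ in atTop, η ≤ |SS V (T/m).toNNReal a m ω|} ≤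
      ENNReal.ofReal (8 * a^2 * T / η^2) := by
  have hP : IsProbabilityMeasure P := hB.isGaussianProcess.isProbabilityMeasure
  set A : ℕ → Set Ω := fun m => {ω | η ≤ |SS V (T/m).toNNReal a m ω|} with hA
  have hAm : ∀ m : ℕ, 0 < m → P (A m) ≤ ENNReal.ofReal ((8 * a^2 * T + 2 * cst * T^2 / m) / η^2) := by
    intro m hm0
    have hm0' : (0:ℝ) < m := by exact_mod_cast hm0
    obtain ⟨_, h2, h3⟩ := l2 (T/m).toNNReal hm hB ha m
    have hδ : ((T/m).toNNReal : ℝ) = T/m := Real.coe_toNNReal _ (by positivity)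
    rw [hδ] at h3
    have h4 := mul_meas_ge_le_integral_of_nonneg (μ := P)
      (Eventually.of_forall fun ω => sq_nonneg (SS V (T/m).toNNReal a m ω)) h2.integrable_sq (η^2)
    have h5 : A m ⊆ {ω | η^2 ≤ SS V (T/m).toNNReal a m ω ^ 2} := by
      intro ω hω
      simp only [hA, mem_ofPred_eq] at hω ⊢
      rw [← sq_abs (SS V _ a m ω)]
      exact pow_le_pow_left₀ hη.le hω 2
    have h6 : P (A m) ≤ ENNReal.ofReal (P.real {ω | η^2 ≤ SS V (T/m).toNNReal a m ω ^ 2}) := by
      rw [ofReal_measureReal]; exact measure_mono h5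
    refine h6.trans (ENNReal.ofReal_le_ofReal ?_)
    rw [le_div_iff₀ (by positivity), mul_comm]
    refine h4.trans (h3.trans (le_of_eq ?_))
    field_simp
  set Bs : ℕ → Set Ω := fun M => ⋂ m ∈ Ici M, A m with hBs
  have hmono : Monotone Bs := by
    intro M M' hMM ω hω
    simp only [hBs, mem_iInter, mem_Ici] at hω ⊢
    exact fun m hm' => hω m (hMM.trans hm')
  have hU : {ω | ∀ᶠ m : ℕ in atTop, η ≤ |SS V (T/m).toNNReal a m ω|} = ⋃ M, Bs M := by
    ext ω
    simp only [mem_ofPred_eq, eventually_atTop, hBs, hA, mem_iUnion, mem_iInter, mem_Ici]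
  rw [hU, hmono.measure_iUnion]
  refine iSup_le fun M => ?_
  have hlim : Tendsto (fun m : ℕ => ENNReal.ofReal ((8 * a^2 * T + 2 * cst * T^2 / m) / η^2)) atTop
      (𝓝 (ENNReal.ofReal (8 * a^2 * T / η^2))) := by
    refine ENNReal.tendsto_ofReal ?_
    have : Tendsto (fun m : ℕ => 2 * cst * T^2 / (m:ℝ)) atTop (𝓝 0) :=
      tendsto_const_div_atTop_nhds_zero_nat _
    have := (this.const_add (8 * a^2 * T)).div_const (η^2)
    rwa [add_zero] at this
  refine ge_of_tendsto hlim ?_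
  filter_upwards [eventually_ge_atTop M, eventually_gt_atTop 0] with m h1 h2
  refine le_trans (measure_mono ?_) (hAm m h2)
  intro ω hω
  simp only [hBs, mem_iInter, mem_Ici] at hω
  exact hω m h1

lemma path_bad {ω : Ω} {a : ℝ} {τ : ℕ → ℝ} {z : ℕ → ℤ} (h : KW (pth V ω) a τ z)
    (hex : Exceed (pth V ω) a τ z) (h0 : V 0 ω = 0) {T : ℝ} (hT : 0 < T) {i : ℕ}
    (hi1 : τ i ≤ T) (hi2 : T < τ (i + 1)) :
    ∀ᶠ m : ℕ in atTop, |a^2 * i - T| - 3 * a^2 ≤ |SS V (T/m).toNNReal a m ω| := by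
  have ha := h.pos
  set w := pth V ω with hw
  set ρ : ℝ := a / (2 * (i + 1)) with hρdef
  have hi0 : (0:ℝ) ≤ i := Nat.cast_nonneg i
  have hρ0 : 0 < ρ := by positivity
  have hρa : ρ < a := by
    rw [hρdef, div_lt_iff₀ (by positivity)]; nlinarith
  have hρi : 2 * a * ρ * i ≤ a^2 := by
    have e : 2 * a * ρ * i = a^2 * (i / (i + 1)) := by rw [hρdef]; field_simp
    rw [e]
    have : (i:ℝ) / (i + 1) ≤ 1 := by rw [div_le_one (by positivity)]; linarith
    nlinarith [sq_nonneg a]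
  have huc : UniformContinuousOn w (Icc 0 T) :=
    isCompact_Icc.uniformContinuousOn_of_continuous h.cont.continuousOn
  rw [Metric.uniformContinuousOn_iff] at huc
  obtain ⟨d, hd, hu⟩ := huc ρ hρ0
  have hev : ∀ᶠ m : ℕ in atTop, T / m < d := by
    have : Tendsto (fun m : ℕ => T / (m:ℝ)) atTop (𝓝 0) := tendsto_const_div_atTop_nhds_zero_nat T
    exact this.eventually_lt_const hd
  filter_upwards [hev, eventually_gt_atTop 0, track h hex hT] with m hm hm0 htr
  have hm0' : (0:ℝ) < m := by exact_mod_cast hm0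
  have htr' := htr i hi1 hi2
  set δ := T / m with hδ
  have hδ0 : 0 < δ := by positivity
  have hδc : (δ.toNNReal : ℝ) = δ := Real.coe_toNNReal _ hδ0.le
  set x : ℕ → ℝ := fun j => w (j * δ) with hx
  have hx0 : x 0 = 0 := by
    simp only [hx, Nat.cast_zero, zero_mul, hw]
    unfold pth
    rw [Real.toNNReal_zero]; exact h0
  have hXX : ∀ j : ℕ, XX V δ.toNNReal j ω = x j := by
    intro j
    simp only [hx, hw]
    unfold XX pth
    congr 1
    apply NNReal.coe_injective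
    rw [Real.coe_toNNReal _ (by positivity)]
    push_cast; rw [hδc]
  have hDL : ∀ j : ℕ, DL V δ.toNNReal j ω = x (j + 1) - x j := by
    intro j
    rw [← hXX, ← hXX]
    unfold DL XX
    push_cast
    rw [add_mul, one_mul]
  have hmT : (m:ℝ) * δ = T := by rw [hδ]; field_simp
  have hin : ∀ j ≤ m, (j:ℝ) * δ ∈ Icc 0 T := by
    intro j hj
    refine ⟨by positivity, ?_⟩
    rw [← hmT]
    exact mul_le_mul_of_nonneg_right (by exact_mod_cast hj) hδ0.le
  have hosc : ∀ j < m, |x (j + 1) - x j| ≤ ρ := by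
    intro j hj
    have := hu (((j+1 : ℕ) : ℝ) * δ) (hin (j+1) hj) ((j:ℝ) * δ) (hin j hj.le) (by
      rw [Real.dist_eq]; push_cast
      rw [add_mul, one_mul, add_sub_cancel_left, abs_of_pos hδ0]; exact hm)
    rw [Real.dist_eq] at this
    exact this.le
  have hbal := balance ha x hx0 hρa m hosc
  have hlt : ∀ j < m, |x j - a * (hs a x j).1| < a := fun j hj =>
    (balance ha x hx0 hρa j fun k hk => hosc k (hk.trans hj)).1
  have hSS : SS V δ.toNNReal a m ω = ∑ j ∈ Finset.range m,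
      (2 * (x j - a * (hs a x j).1) * (x (j+1) - x j) + (x (j+1) - x j)^2) - T := by
    have e1 : SS V δ.toNNReal a m ω = ∑ j ∈ Finset.range m,
      ((2 * (x j - a * (hs a x j).1) * (x (j+1) - x j) + (x (j+1) - x j)^2) - δ) := by
      unfold SS
      refine Finset.sum_congr rfl fun j hj => ?_
      have hj' := hlt j (Finset.mem_range.1 hj)
      rw [abs_lt] at hj'
      unfold DD HH
      simp only [hXX, hDL, hδc]
      rw [min_eq_right (by linarith), max_eq_right (by linarith)]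
      ring
    rw [e1, Finset.sum_sub_distrib, Finset.sum_const, Finset.card_range, nsmul_eq_mul, hmT]
  set Z := ∑ j ∈ Finset.range m,
      (2 * (x j - a * (hs a x j).1) * (x (j+1) - x j) + (x (j+1) - x j)^2) with hZ
  rw [hSS]
  obtain ⟨b1, b2⟩ := hbal
  set n := (hs a x m).2 with hn
  set y := x m - a * (hs a x m).1 with hy
  have hy2 : y^2 ≤ a^2 := by
    rw [← sq_abs y]; exact pow_le_pow_left₀ (abs_nonneg _) b1.le 2
  have hn1 : (n:ℝ) ≤ i := by
    rcases htr' with h1 | ⟨_, h1⟩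
    · exact_mod_cast h1.le
    · exact_mod_cast (by omega : n ≤ i)
  have hn2 : (i:ℝ) - 1 ≤ n := by
    rcases htr' with h1 | ⟨_, h1⟩
    · have : (n:ℝ) = i := by exact_mod_cast h1
      linarith
    · have : (n:ℝ) + 1 = i := by exact_mod_cast h1
      linarith
  have b3 : 2 * a * ρ * n ≤ a^2 := by
    refine le_trans ?_ hρi
    exact mul_le_mul_of_nonneg_left hn1 (by positivity)
  have b4 := abs_le.1 (b2.trans b3)
  have a2 : 0 ≤ a^2 := sq_nonneg a
  have c1 : a^2 * n ≤ a^2 * i := mul_le_mul_of_nonneg_left hn1 a2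
  have c2 : a^2 * i - a^2 ≤ a^2 * n := by nlinarith
  have hy0 := sq_nonneg y
  rcases abs_cases (a^2 * i - T) with ⟨e, _⟩ | ⟨e, _⟩
  · rw [e]
    refine le_trans ?_ (le_abs_self _)
    linarith [b4.1, b4.2]
  · rw [e]
    refine le_trans ?_ (neg_le_abs _)
    linarith [b4.1, b4.2]

theorem prob_bad (hm : ∀ t, Measurable (V t)) (hc : ∀ ω, Continuous (V · ω))
    (hB : IsPreBrownianReal V P) {a T ε : ℝ} (ha : 0 < a) (hT : 0 < T) (hε : 3 * a^2 < ε) :
    P {ω | ∃ i : ℕ, kt (pth V ω) a i ≤ T ∧ T < kt (pth V ω) a (i+1) ∧ ε ≤ |a^2 * i - T|} ≤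
      ENNReal.ofReal (8 * a^2 * T / (ε - 3 * a^2)^2) := by
  refine le_trans (measure_mono_ae ?_) (bad1 hm hB ha hT (sub_pos.2 hε))
  have hm' : ∀ t, Measurable ((-V) t) := fun t => (hm t).neg
  have hc' : ∀ ω, Continuous ((-V) · ω) := fun ω => (hc ω).neg
  filter_upwards [noLat_ae hm hc hB a, noLat_ae hm' hc' hB.neg a, unb_ae hm hB,
    hB.eval_zero_ae_eq_zero] with ω h1 h2 h3 h4 h5
  obtain ⟨i, i1, i2, i3⟩ := h5
  have hcw : Continuous (pth V ω) := (pp_pth hm hc).cont ω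
  have hw0 : pth V ω 0 = 0 := by unfold pth; rw [Real.toNNReal_zero]; exact h4
  obtain ⟨z, hz⟩ := exists_KW hcw h3 hw0 ha
  have hex := exceed_of hz h1 h2
  have := path_bad hz hex h4 hT i1 i2
  show ∀ᶠ m : ℕ in atTop, ε - 3 * a^2 ≤ |SS V (T/m).toNNReal a m ω|
  filter_upwards [this] with m hm
  linarith

end Pool.Agent.V11191.Knight
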