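import Mathlib

/-!
# Knight's embedded walks: deterministic part
-/

open Set Filter Topology

namespace Pool.Agent.V11191.Knight

/-- successive times at which the path has moved by `a` -/
noncomputable def kt (w : ℝ → ℝ) (a : ℝ) : ℕ → ℝ
  | 0 => 0
  | k + 1 => sInf {t : ℝ | kt w a k < t ∧ |w t - w (kt w a k)| = a}

/-- unbounded path -/
def Unb (w : ℝ → ℝ) : Prop := ∀ M : ℝ, ∃ t, 0 ≤ t ∧ M < |w t|

lemma ivt_abs {w : ℝ → ℝ} (hw : Continuous w) {a s r : ℝ} (ha : 0 < a) (hsr : s ≤ r)
    (h : a ≤ |w r - w s|) : ∃ t, s < t ∧ t ≤ r ∧ |w t - w s| = a := by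
  have hc : ContinuousOn (fun t => |w t - w s|) (Icc s r) := by fun_prop
  have := intermediate_value_Icc hsr hc
  obtain ⟨t, ⟨h1, h2⟩, h3⟩ := this ⟨by simpa using ha.le, h⟩
  refine ⟨t, ?_, h2, h3⟩
  rcases h1.eq_or_lt with h4 | h4
  · subst h4; simp only [sub_self, abs_zero] at h3; linarith
  · exact h4

lemma next_spec {w : ℝ → ℝ} (hw : Continuous w) (hu : Unb w) {a : ℝ} (ha : 0 < a) {s : ℝ}
    (hs : 0 ≤ s) : s < sInf {t : ℝ | s < t ∧ |w t - w s| = a} ∧
      |w (sInf {t : ℝ | s < t ∧ |w t - w s| = a}) - w s| = a ∧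
      ∀ r, s ≤ r → r < sInf {t : ℝ | s < t ∧ |w t - w s| = a} → |w r - w s| < a := by
  set E := {t : ℝ | s < t ∧ |w t - w s| = a} with hE
  have hne : E.Nonempty := by
    obtain ⟨M, hM⟩ := (isCompact_Icc (a := (0:ℝ)) (b := s)).exists_bound_of_continuousOn
      hw.continuousOn
    obtain ⟨t', h0, h1⟩ := hu (|M| + |w s| + a)
    have hst : s ≤ t' := by
      by_contra hcon
      have := hM t' ⟨h0, (not_le.1 hcon).le⟩
      rw [Real.norm_eq_abs] at this
      have h2 := le_abs_self M
      have h3 := abs_nonneg (w s)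
      linarith
    have h4 : a ≤ |w t' - w s| := by
      have h5 := abs_sub_abs_le_abs_sub (w t') (w s)
      have h6 := abs_nonneg M
      linarith
    obtain ⟨t, h5, _, h7⟩ := ivt_abs hw ha hst h4
    exact ⟨t, h5, h7⟩
  have hev : ∀ᶠ r in 𝓝 s, |w r - w s| < a := by
    have : ContinuousAt (fun r => |w r - w s|) s := by fun_prop
    exact this.eventually_lt_const (by simpa using ha)
  obtain ⟨ρ, hρ, hball⟩ := Metric.eventually_nhds_iff.1 hev
  have hE2 : E = {t | s + ρ ≤ t} ∩ {t | |w t - w s| = a} := by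
    ext t
    simp only [hE, mem_ofPred_eq, mem_inter_iff]
    constructor
    · rintro ⟨h1, h2⟩
      refine ⟨?_, h2⟩
      by_contra h3
      have := hball (y := t) (by rw [Real.dist_eq, abs_lt]; constructor <;> linarith)
      linarith
    · rintro ⟨h1, h2⟩
      exact ⟨by linarith, h2⟩
  have hcl : IsClosed E := by
    rw [hE2]
    exact (isClosed_le continuous_const continuous_id).inter
      (isClosed_eq (by fun_prop) continuous_const)
  have hbdd : BddBelow E := ⟨s, fun t ht => ht.1.le⟩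
  have hmem := hcl.csInf_mem hne hbdd
  refine ⟨hmem.1, hmem.2, fun r hr1 hr2 => ?_⟩
  by_contra hcon
  obtain ⟨t, h1, h2, h3⟩ := ivt_abs hw ha hr1 (not_lt.1 hcon)
  have := csInf_le hbdd (show t ∈ E from ⟨h1, h3⟩)
  linarith

/-- the data of a Knight walk -/
structure KW (w : ℝ → ℝ) (a : ℝ) (τ : ℕ → ℝ) (z : ℕ → ℤ) : Prop where
  cont : Continuous w
  pos : 0 < a
  τ0 : τ 0 = 0
  z0 : z 0 = 0
  lt : ∀ k, τ k < τ (k + 1)
  lev : ∀ k, w (τ k) = a * z k
  step : ∀ k, z (k + 1) - z k = 1 ∨ z (k + 1) - z k = -1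
  stay : ∀ k r, τ k ≤ r → r < τ (k + 1) → |w r - a * z k| < a

lemma exists_KW {w : ℝ → ℝ} (hw : Continuous w) (hu : Unb w) (h0 : w 0 = 0) {a : ℝ} (ha : 0 < a) :
    ∃ z : ℕ → ℤ, KW w a (kt w a) z := by
  have hk0 : kt w a 0 = 0 := rfl
  have hnn : ∀ k, 0 ≤ kt w a k := by
    intro k
    induction k with
    | zero => exact le_rfl
    | succ k ih => exact ih.trans (next_spec hw hu ha ih).1.le
  have hspec := fun k => next_spec hw hu ha (hnn k)
  have hsucc : ∀ k, kt w a (k + 1) = sInf {t : ℝ | kt w a k < t ∧ |w t - w (kt w a k)| = a} :=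
    fun k => rfl
  have hlev : ∀ k, ∃ m : ℤ, w (kt w a k) = a * m := by
    intro k
    induction k with
    | zero => exact ⟨0, by rw [hk0, h0]; simp⟩
    | succ k ih =>
      obtain ⟨m, hm⟩ := ih
      have h1 := (hspec k).2.1
      rw [← hsucc] at h1
      rcases (abs_eq ha.le).1 h1 with h2 | h2
      · exact ⟨m + 1, by push_cast; linarith⟩
      · exact ⟨m - 1, by push_cast; linarith⟩
  choose z hz using hlev
  refine ⟨z, hw, ha, hk0, ?_, fun k => (hspec k).1, hz, ?_, ?_⟩
  · have := hz 0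
    rw [hk0, h0] at this
    rcases mul_eq_zero.1 this.symm with h | h
    · linarith
    · exact_mod_cast h
  · intro k
    have h1 := (hspec k).2.1
    rw [← hsucc, hz, hz] at h1
    rcases (abs_eq ha.le).1 h1 with h2 | h2
    · left
      have : (a * ((z (k + 1) - z k : ℤ) : ℝ)) = a * 1 := by push_cast; linarith
      exact_mod_cast mul_left_cancel₀ ha.ne' this
    · right
      have : (a * ((z (k + 1) - z k : ℤ) : ℝ)) = a * (-1) := by push_cast; linarith
      exact_mod_cast mul_left_cancel₀ ha.ne' this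
  · intro k r h1 h2
    rw [← hz]
    exact (hspec k).2.2 r h1 h2

variable {w : ℝ → ℝ} {a : ℝ} {τ : ℕ → ℝ} {z : ℕ → ℤ}

lemma KW.mono (h : KW w a τ z) : StrictMono τ := strictMono_nat_of_lt_succ h.lt

lemma KW.nonneg (h : KW w a τ z) (k : ℕ) : 0 ≤ τ k := by
  rw [← h.τ0]; exact h.mono.monotone (Nat.zero_le k)

lemma KW.unb (h : KW w a τ z) (T : ℝ) : ∃ K, T < τ K := by
  by_contra hcon
  push Not at hcon
  have huc : UniformContinuousOn w (Icc 0 T) :=
    isCompact_Icc.uniformContinuousOn_of_continuous h.cont.continuousOn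
  rw [Metric.uniformContinuousOn_iff] at huc
  obtain ⟨δ, hδ, hu⟩ := huc a h.pos
  have hgap : ∀ k, δ ≤ τ (k + 1) - τ k := by
    intro k
    by_contra hcon2
    have h1 := hu (τ (k+1)) ⟨h.nonneg _, hcon _⟩ (τ k) ⟨h.nonneg _, hcon _⟩ (by
      rw [Real.dist_eq, abs_of_pos (sub_pos.2 (h.lt k))]; linarith)
    rw [Real.dist_eq, h.lev, h.lev, ← mul_sub, abs_mul, abs_of_pos h.pos] at h1
    have h2 : |((z (k+1) : ℝ) - z k)| = 1 := by
      rcases h.step k with h3 | h3
      · have : ((z (k+1) : ℝ) - z k) = 1 := by exact_mod_cast h3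
        rw [this]; simp
      · have : ((z (k+1) : ℝ) - z k) = -1 := by exact_mod_cast h3
        rw [this]; simp
    rw [h2] at h1; linarith
  have hlin : ∀ k : ℕ, k * δ ≤ τ k := by
    intro k
    induction k with
    | zero => rw [h.τ0]; simp
    | succ k ih => have := hgap k; push_cast; linarith
  obtain ⟨k, hk⟩ := exists_nat_gt (T/δ)
  rw [div_lt_iff₀ hδ] at hk
  have := hlin k
  have := hcon k
  linarith

/-- the interval `[τ i, τ (i+1))` containing a time -/
lemma KW.exists_idx (h : KW w a τ z) {t : ℝ} (ht : 0 ≤ t) : ∃ i, τ i ≤ t ∧ t < τ (i + 1) := by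
  obtain ⟨K, hK⟩ := h.unb t
  induction K with
  | zero => rw [h.τ0] at hK; linarith
  | succ K ih =>
    rcases lt_or_ge t (τ K) with h1 | h1
    · exact ih h1
    · exact ⟨K, h1, hK⟩

/-! ### hysteresis of a sampled path -/

/-- one step of the sampled walk: the state is (level, number of steps) -/
noncomputable def st (a : ℝ) (p : ℤ × ℕ) (y : ℝ) : ℤ × ℕ :=
  if a ≤ y - a * p.1 then (p.1 + 1, p.2 + 1)
  else if y - a * p.1 ≤ -a then (p.1 - 1, p.2 + 1) else p

/-- the sampled walk -/
noncomputable def hs (a : ℝ) (x : ℕ → ℝ) : ℕ → ℤ × ℕ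
  | 0 => (0, 0)
  | j + 1 => st a (hs a x j) (x (j + 1))

lemma st_stay {a : ℝ} {p : ℤ × ℕ} {y : ℝ} (h : |y - a * p.1| < a) : st a p y = p := by
  rw [abs_lt] at h
  unfold st
  rw [if_neg (by linarith), if_neg (by linarith)]

/-- exact energy balance -/
lemma balance (ha : 0 < a) (x : ℕ → ℝ) (hx0 : x 0 = 0) {ρ : ℝ} (hρ : ρ < a) (m : ℕ)
    (hosc : ∀ j < m, |x (j + 1) - x j| ≤ ρ) :
    |x m - a * (hs a x m).1| < a ∧
    |a^2 * (hs a x m).2 - ∑ j ∈ Finset.range m,
      (2 * (x j - a * (hs a x j).1) * (x (j+1) - x j) + (x (j+1) - x j)^2)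
      + (x m - a * (hs a x m).1)^2| ≤ 2 * a * ρ * (hs a x m).2 := by
  induction m with
  | zero => simp [hs, hx0, ha]
  | succ m ih =>
    obtain ⟨ih1, ih2⟩ := ih fun j hj => hosc j (hj.trans (Nat.lt_succ_self m))
    have hd := hosc m (Nat.lt_succ_self m)
    set p := hs a x m with hp
    have hsucc : hs a x (m + 1) = st a p (x (m + 1)) := rfl
    set y := x m - a * p.1 with hy
    set d := x (m + 1) - x m with hd'
    have hxy : x (m + 1) - a * p.1 = y + d := by simp only [hy, hd']; ring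
    have hρ0 : 0 ≤ ρ := (abs_nonneg d).trans hd
    rw [abs_lt] at ih1
    have hdd := abs_le.1 hd
    rw [abs_le] at ih2
    rw [Finset.sum_range_succ]
    by_cases h1 : a ≤ x (m + 1) - a * p.1
    · have hst : hs a x (m + 1) = (p.1 + 1, p.2 + 1) := by
        rw [hsucc]; unfold st; rw [if_pos h1]
      rw [hst]
      rw [hxy] at h1
      have e1 : x (m + 1) - a * ((p.1 + 1 : ℤ) : ℝ) = y + d - a := by
        push_cast; rw [← hxy]; ring
      simp only
      rw [e1]
      refine ⟨by rw [abs_lt]; constructor <;> linarith, ?_⟩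
      push_cast
      rw [abs_le]
      have h2 : 0 ≤ y + d - a := by linarith
      have h3 : y + d - a ≤ ρ := by linarith
      have h4 : 0 ≤ a * (y + d - a) := mul_nonneg ha.le h2
      have h5 : a * (y + d - a) ≤ a * ρ := mul_le_mul_of_nonneg_left h3 ha.le
      constructor
      · nlinarith [ih2.1]
      · nlinarith [ih2.2]
    · by_cases h1' : x (m + 1) - a * p.1 ≤ -a
      · have hst : hs a x (m + 1) = (p.1 - 1, p.2 + 1) := by
          rw [hsucc]; unfold st; rw [if_neg h1, if_pos h1']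
        rw [hst]
        rw [hxy] at h1'
        have e1 : x (m + 1) - a * ((p.1 - 1 : ℤ) : ℝ) = y + d + a := by
          push_cast; rw [← hxy]; ring
        simp only
        rw [e1]
        refine ⟨by rw [abs_lt]; constructor <;> linarith, ?_⟩
        push_cast
        rw [abs_le]
        have h2 : y + d + a ≤ 0 := by linarith
        have h3 : -ρ ≤ y + d + a := by linarith
        have h4 : a * (y + d + a) ≤ 0 := mul_nonpos_of_nonneg_of_nonpos ha.le h2
        have h5 : -(a * ρ) ≤ a * (y + d + a) := by nlinarith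
        constructor
        · nlinarith [ih2.1]
        · nlinarith [ih2.2]
      · have hst : hs a x (m + 1) = p := by
          rw [hsucc]; unfold st; rw [if_neg h1, if_neg h1']
        rw [hst, hxy]
        rw [hxy] at h1 h1'
        push Not at h1 h1'
        refine ⟨by rw [abs_lt]; constructor <;> linarith, ?_⟩
        rw [abs_le]
        constructor
        · nlinarith [ih2.1]
        · nlinarith [ih2.2]

end Pool.Agent.V11191.Knight
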