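import Pool.Agent.V11191.Knight.Lim

/-!
# Convergence of the span sets of Knight's walks
-/

open Set MeasureTheory Filter Topology ProbabilityTheory
open scoped NNReal ENNReal
open Pool.Agent.V11191.Span
open Pool.Agent.V11330.SpanLim

namespace Pool.Agent.V11191.Knight

variable {Ω : Type*} [mΩ : MeasurableSpace Ω] {P : Measure Ω} {V : ℝ≥0 → Ω → ℝ}

/-- clamping to `[0,2]` -/
noncomputable def c2 (t : ℝ) : ℝ := max 0 (min t 2)

lemma c2_cont : Continuous c2 := by unfold c2; fun_prop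

lemma c2_mem (t : ℝ) : c2 t ∈ Icc (0:ℝ) 2 := ⟨le_max_left _ _, max_le (by norm_num) (min_le_right _ _)⟩

lemma c2_of {t : ℝ} (h : t ∈ Icc (0:ℝ) 2) : c2 t = t := by
  unfold c2; rw [min_eq_left h.2, max_eq_right h.1]

lemma c2_lip (u v : ℝ) : |c2 u - c2 v| ≤ |u - v| := by
  unfold c2
  refine (abs_max_sub_max_le_max _ _ _ _).trans ?_
  rw [sub_self, abs_zero]
  refine max_le (abs_nonneg _) ?_
  refine (abs_min_sub_min_le_max _ _ _ _).trans ?_
  rw [sub_self, abs_zero]
  exact max_le le_rfl (abs_nonneg _)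

/-- the modulus of continuity is bad -/
def MB (V : ℝ≥0 → Ω → ℝ) (θ : ℝ) (j : ℕ) : Set Ω :=
  {ω | ∃ u v : ℚ, |(u:ℝ) - v| < 1/((j:ℝ)+1) ∧ θ < |pth V ω (c2 u) - pth V ω (c2 v)|}

lemma MB_prob (hm : ∀ t, Measurable (V t)) (hc : ∀ ω, Continuous (V · ω))
    [IsFiniteMeasure P] {θ : ℝ} (hθ : 0 < θ) : Tendsto (fun j => P (MB V θ j)) atTop (𝓝 0) := by
  have hmeas : ∀ j, MeasurableSet (MB V θ j) := by
    intro j
    have e : MB V θ j = ⋃ u : ℚ, ⋃ v : ℚ, {ω | |(u:ℝ) - v| < 1/((j:ℝ)+1) ∧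
        θ < |pth V ω (c2 u) - pth V ω (c2 v)|} := by
      ext ω; simp only [MB, mem_iUnion, mem_ofPred_eq]
    rw [e]
    refine MeasurableSet.iUnion fun u => MeasurableSet.iUnion fun v => ?_
    by_cases h : |(u:ℝ) - v| < 1/((j:ℝ)+1)
    · simp only [h, true_and]
      exact measurableSet_lt measurable_const (((hm _).sub (hm _)).abs)
    · simp only [h, false_and]
      exact MeasurableSet.empty
  have hanti : Antitone (MB V θ) := by
    intro i j hij ω hω
    obtain ⟨u, v, h1, h2⟩ := hω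
    refine ⟨u, v, lt_of_lt_of_le h1 ?_, h2⟩
    refine one_div_le_one_div_of_le (by positivity) ?_
    have : (i:ℝ) ≤ j := by exact_mod_cast hij
    linarith
  have hlim := tendsto_measure_iInter_atTop (μ := P) (fun j => (hmeas j).nullMeasurableSet) hanti
    ⟨0, measure_ne_top _ _⟩
  have hempty : (⋂ j, MB V θ j) = ∅ := by
    rw [eq_empty_iff_forall_notMem]
    intro ω hω
    rw [mem_iInter] at hω
    have hcw : Continuous (pth V ω) := (pp_pth hm hc).cont ω
    have huc : UniformContinuousOn (pth V ω) (Icc 0 2) :=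
      isCompact_Icc.uniformContinuousOn_of_continuous hcw.continuousOn
    rw [Metric.uniformContinuousOn_iff] at huc
    obtain ⟨d, hd, hu⟩ := huc θ hθ
    obtain ⟨j, hj⟩ := exists_nat_one_div_lt hd
    obtain ⟨u, v, h1, h2⟩ := hω j
    have := hu (c2 u) (c2_mem _) (c2 v) (c2_mem _) (by
      rw [Real.dist_eq]; exact lt_of_le_of_lt (c2_lip _ _) (h1.trans hj))
    rw [Real.dist_eq] at this
    linarith
  rw [hempty, measure_empty] at hlim
  exact hlim

omit mΩ in
lemma not_MB {ω : Ω} {θ : ℝ} {j : ℕ} (hcw : Continuous (pth V ω)) (h : ω ∉ MB V θ j) :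
    ∀ u ∈ Icc (0:ℝ) 2, ∀ v ∈ Icc (0:ℝ) 2, |u - v| < 1/((j:ℝ)+1) →
      |pth V ω u - pth V ω v| ≤ θ := by
  have hcl : IsClosed {p : ℝ × ℝ | |p.1 - p.2| < 1/((j:ℝ)+1) →
      |pth V ω (c2 p.1) - pth V ω (c2 p.2)| ≤ θ} := by
    have e : {p : ℝ × ℝ | |p.1 - p.2| < 1/((j:ℝ)+1) →
      |pth V ω (c2 p.1) - pth V ω (c2 p.2)| ≤ θ} = {p : ℝ × ℝ | |p.1 - p.2| < 1/((j:ℝ)+1)}ᶜ ∪
        {p : ℝ × ℝ | |pth V ω (c2 p.1) - pth V ω (c2 p.2)| ≤ θ} := by
      ext p; simp only [mem_ofPred_eq, mem_union, mem_compl_iff]; tauto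
    rw [e]
    have hc2 := c2_cont
    refine IsClosed.union (IsOpen.isClosed_compl ?_) ?_
    · exact isOpen_lt (by fun_prop) continuous_const
    · refine isClosed_le ?_ continuous_const
      exact ((hcw.comp (hc2.comp continuous_fst)).sub (hcw.comp (hc2.comp continuous_snd))).abs
  have hd : DenseRange (Prod.map ((↑) : ℚ → ℝ) ((↑) : ℚ → ℝ)) :=
    Rat.denseRange_cast.prodMap Rat.denseRange_cast
  intro u hu v hv huv
  have := hd.induction_on (p := fun p => |p.1 - p.2| < 1/((j:ℝ)+1) →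
      |pth V ω (c2 p.1) - pth V ω (c2 p.2)| ≤ θ) (u, v) hcl (by
    rintro ⟨x, y⟩ hxy
    by_contra hcon
    exact h ⟨x, y, hxy, not_le.1 hcon⟩) huv
  simp only [c2_of hu, c2_of hv] at this
  exact this

/-! ### span sets near the limit -/

/-- paths near which the span set oscillates by more than `κ` -/
def OD (κ ρ : ℝ) : Set Y994.KW.Pa :=
  {w | ∃ w' w'', dist w w' < ρ ∧ dist w w'' < ρ ∧ κ < dist (spK w') (spK w'')}

lemma isOpen_OD (κ ρ : ℝ) : IsOpen (OD κ ρ) := by
  have e : OD κ ρ = ⋃ w' : Y994.KW.Pa, ⋃ w'' : Y994.KW.Pa, {w | dist w w' < ρ ∧ dist w w'' < ρ ∧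
      κ < dist (spK w') (spK w'')} := by
    ext w; simp only [OD, mem_iUnion, mem_ofPred_eq]
  rw [e]
  refine isOpen_iUnion fun w' => isOpen_iUnion fun w'' => ?_
  by_cases h : κ < dist (spK w') (spK w'')
  · have e2 : {w : Y994.KW.Pa | dist w w' < ρ ∧ dist w w'' < ρ ∧ κ < dist (spK w') (spK w'')} =
        Metric.ball w' ρ ∩ Metric.ball w'' ρ := by
      ext w; simp only [mem_ofPred_eq, h, and_true, mem_inter_iff, Metric.mem_ball]
    rw [e2]
    exact Metric.isOpen_ball.inter Metric.isOpen_ball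
  · simp only [h, and_false]
    exact isOpen_empty

lemma OD_prob (hB : IsBrownianReal V P) {κ : ℝ} (hκ : 0 < κ) :
    Tendsto (fun j : ℕ => P {ω | V11330.Donsker.res (V · ω) ∈ OD κ (1/((j:ℝ)+1))}) atTop (𝓝 0) := by
  have hP : IsProbabilityMeasure P := hB.isGaussianProcess.isProbabilityMeasure
  have hres := V11330.Donsker.aemeasurable_res hB
  have hanti : Antitone (fun j : ℕ => OD κ (1/((j:ℝ)+1))) := by
    intro i j hij w hw
    obtain ⟨w', w'', h1, h2, h3⟩ := hw
    have hle : 1/((j:ℝ)+1) ≤ 1/((i:ℝ)+1) := by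
      refine one_div_le_one_div_of_le (by positivity) ?_
      have : (i:ℝ) ≤ j := by exact_mod_cast hij
      linarith
    exact ⟨w', w'', lt_of_lt_of_le h1 hle, lt_of_lt_of_le h2 hle, h3⟩
  have := tendsto_measure_iInter_atTop (μ := P.map (fun ω => V11330.Donsker.res (V · ω)))
    (fun j : ℕ => (isOpen_OD κ (1/((j:ℝ)+1))).measurableSet.nullMeasurableSet) hanti
    ⟨0, measure_ne_top _ _⟩
  have h0 : P.map (fun ω => V11330.Donsker.res (V · ω)) (⋂ j : ℕ, OD κ (1/((j:ℝ)+1))) = 0 := by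
    rw [Measure.map_apply_of_aemeasurable hres
      (MeasurableSet.iInter fun j : ℕ => (isOpen_OD κ (1/((j:ℝ)+1))).measurableSet)]
    have hae := ae_continuousAt hB
    rw [ae_iff] at hae
    refine measure_mono_null ?_ hae
    intro ω hω hcont
    rw [mem_preimage, mem_iInter] at hω
    rw [Metric.continuousAt_iff] at hcont
    obtain ⟨ρ, hρ, hball⟩ := hcont (κ/2) (by positivity)
    obtain ⟨j, hj⟩ := exists_nat_one_div_lt hρ
    obtain ⟨w', w'', h1, h2, h3⟩ := hω j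
    have e1 := hball (x := w') (by rw [dist_comm]; exact h1.trans hj)
    have e2 := hball (x := w'') (by rw [dist_comm]; exact h2.trans hj)
    have := dist_triangle_right (spK w') (spK w'') (spK (V11330.Donsker.res (V · ω)))
    linarith
  rw [h0] at this
  refine this.congr fun j => ?_
  simp only [Function.comp_apply]
  rw [Measure.map_apply_of_aemeasurable hres (isOpen_OD κ (1/((j:ℝ)+1))).measurableSet]
  rfl

/-! ### the sets -/

/-- the span set of a path -/
def SpS (w : ℝ → ℝ) : Set ℝ := {u | ∃ s t : ℝ, 0 ≤ s ∧ s ≤ t ∧ t ≤ 1 ∧ w s = w t ∧ u = t - s}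

/-- rescaled span set of the walk -/
def SpW (w : ℝ → ℝ) (n : ℕ) : Set ℝ :=
  {u | ∃ l k : ℕ, l ≤ k ∧ k ≤ 4^n ∧ w (kt w (an n) k) = w (kt w (an n) l) ∧ u = ((k:ℝ) - l)/4^n}

omit mΩ in
lemma res_eq {ω : Ω} (hc : Continuous (V · ω)) (s : unitInterval) :
    V11330.Donsker.res (V · ω) s = pth V ω s := by
  rw [V11330.Donsker.res_apply hc]
  unfold pth
  congr 1
  apply NNReal.coe_injective
  rw [Real.coe_toNNReal _ s.2.1]; rfl

omit mΩ in
lemma hd_eq {ω : Ω} (hc : Continuous (V · ω)) {n : ℕ} {z : ℕ → ℤ}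
    (h : KW (pth V ω) (an n) (kt (pth V ω) (an n)) z) :
    Metric.hausdorffDist (SpW (pth V ω) n) (SpS (pth V ω)) =
      dist (wspanK (4^n) z) (spK (V11330.Donsker.res (V · ω))) := by
  rw [Metric.NonemptyCompacts.dist_eq, ← Metric.hausdorffDist_image (Φ := (Subtype.val : unitInterval → ℝ)) isometry_subtype_coe]
  congr 1
  · ext u
    constructor
    · rintro ⟨l, k, h1, h2, h3, h4⟩
      have hN0 : (0:ℝ) < 4^n := by positivity
      have hk1 : (k:ℝ) ≤ 4^n := by exact_mod_cast h2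
      have hl1 : (l:ℝ) ≤ k := by exact_mod_cast h1
      have hl0 : (0:ℝ) ≤ l := Nat.cast_nonneg _
      have hu : u ∈ Icc (0:ℝ) 1 := by
        rw [h4]
        exact ⟨div_nonneg (by linarith) hN0.le, (div_le_one hN0).2 (by linarith)⟩
      refine ⟨⟨u, hu⟩, ⟨l, k, h1, h2, ?_, by simpa using h4⟩, rfl⟩
      rw [h.lev, h.lev] at h3
      exact_mod_cast mul_left_cancel₀ h.pos.ne' h3
    · rintro ⟨u', ⟨l, k, h1, h2, h3, h4⟩, rfl⟩
      refine ⟨l, k, h1, h2, ?_, by simpa using h4⟩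
      rw [h.lev, h.lev, h3]
  · ext u
    constructor
    · rintro ⟨s, t, h1, h2, h3, h4, h5⟩
      have hu : u ∈ Icc (0:ℝ) 1 := by rw [h5]; constructor <;> linarith
      refine ⟨⟨u, hu⟩, mem_spK.2 ⟨⟨s, h1, h2.trans h3⟩, ⟨t, h1.trans h2, h3⟩, h2, ?_, h5⟩, rfl⟩
      rw [res_eq hc, res_eq hc]; exact h4
    · rintro ⟨u', hu', rfl⟩
      obtain ⟨s, t, h1, h2, h3⟩ := mem_spK.1 hu'
      rw [res_eq hc, res_eq hc] at h2
      exact ⟨s, t, s.2.1, h1, t.2.2, h2, h3⟩

lemma an_eq (n : ℕ) : an n = 1/√((4^n : ℕ) : ℝ) := by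
  unfold an
  congr 1
  symm
  rw [Real.sqrt_eq_iff_mul_self_eq (by positivity) (by positivity)]
  push_cast
  rw [← mul_pow]; norm_num

omit mΩ in
/-- closeness of the polygon in the space of paths -/
lemma close_path {ω : Ω} (hc : Continuous (V · ω)) {n : ℕ} {z : ℕ → ℤ}
    (h : KW (pth V ω) (an n) (kt (pth V ω) (an n)) z) {η d θ : ℝ} (hθ : 0 ≤ θ)
    (h1 : ∀ k : ℕ, an n ^ 2 * k ≤ 1 → |kt (pth V ω) (an n) k - an n ^ 2 * k| ≤ η)
    (h2 : ∀ u ∈ Icc (0:ℝ) 2, ∀ v ∈ Icc (0:ℝ) 2, |u - v| < d → |pth V ω u - pth V ω v| ≤ θ)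
    (h3 : η + an n ^ 2 < d) (h4 : η ≤ 1) :
    dist (Y994.KW.pth (1/√((4^n : ℕ) : ℝ)) (fun k => (z k : ℝ)) (4^n))
      (V11330.Donsker.res (V · ω)) ≤ θ := by
  rw [ContinuousMap.dist_le hθ]
  intro x
  rw [res_eq hc, Real.dist_eq]
  have e : an n ^ 2 = 1 / ((4^n : ℕ) : ℝ) := by
    rw [an_sq, one_div_pow]; push_cast; rfl
  have hN0 : (0:ℝ) < ((4^n : ℕ) : ℝ) := by positivity
  refine close h (Nat.one_le_pow _ _ (by norm_num)) (an_eq n) (η := η) (d := d) ?_ h2
    (by rw [← e]; exact h3) h4 x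
  intro k hk
  have := h1 k (by
    rw [e, one_div, inv_mul_eq_div, div_le_one hN0]; exact_mod_cast hk)
  rwa [e, one_div, inv_mul_eq_div] at this

lemma tend_two : Tendsto (fun n : ℕ => 2 / ((4^n : ℕ) : ℝ)) atTop (𝓝 0) := by
  have := an_sq_tendsto.const_mul 2
  rw [mul_zero] at this
  refine this.congr fun n => ?_
  rw [an_sq, one_div_pow]; push_cast; ring

theorem main_V (hm : ∀ t, Measurable (V t)) (hc : ∀ ω, Continuous (V · ω))
    (hB : IsPreBrownianReal V P) :
    (∀ᵐ ω ∂P, Tendsto (fun n => Metric.hausdorffDist (SpW (pth V ω) n) (SpS (pth V ω)))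
      atTop (𝓝 0)) ∧
    ∀ ε > 0, Tendsto (fun n => P {ω | ε ≤ Metric.hausdorffDist (SpW (pth V ω) n) (SpS (pth V ω))})
      atTop (𝓝 0) := by
  have hP : IsProbabilityMeasure P := hB.isGaussianProcess.isProbabilityMeasure
  have hBr : IsBrownianReal V P := ⟨hB, Eventually.of_forall hc⟩
  constructor
  · filter_upwards [allKW_ae hm hc hB, timing_as hm hc hB, ae_continuousAt hBr] with ω h1 h2 h3
    have hcw : Continuous (pth V ω) := (pp_pth hm hc).cont ω
    choose z hz using fun n => h1 (an n) (an_pos n)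
    have hconv : Tendsto (fun n : ℕ => Y994.KW.pth (1/√((4^n : ℕ) : ℝ)) (fun k => (z n k : ℝ)) (4^n))
        atTop (𝓝 (V11330.Donsker.res (V · ω))) := by
      rw [Metric.tendsto_atTop']
      intro θ hθ
      have huc : UniformContinuousOn (pth V ω) (Icc 0 2) :=
        isCompact_Icc.uniformContinuousOn_of_continuous hcw.continuousOn
      rw [Metric.uniformContinuousOn_iff] at huc
      obtain ⟨d, hd, hu⟩ := huc (θ/2) (by positivity)
      have e1 := h2 (min (d/4) (1/2)) (by positivity)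
      have e2 := an_sq_tendsto.eventually_lt_const (show 0 < d/2 by positivity)
      obtain ⟨N, hN⟩ := eventually_atTop.1 (e1.and e2)
      refine ⟨N, fun n hn => ?_⟩
      obtain ⟨f1, f2⟩ := hN n hn.le
      refine lt_of_le_of_lt (close_path (hc ω) (hz n) (η := 2 * min (d/4) (1/2)) (d := d)
        (θ := θ/2) (by positivity) f1 ?_ ?_ ?_) (by linarith)
      · intro u hu' v hv' huv
        have := hu u hu' v hv' huv
        rw [Real.dist_eq] at this
        exact this.le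
      · have := min_le_left (d/4) (1/2 : ℝ); linarith
      · have := min_le_right (d/4) (1/2 : ℝ); linarith
    have hsp := h3.tendsto.comp hconv
    have hd0 : Tendsto (fun n : ℕ => 2 / ((4^n : ℕ) : ℝ) +
        dist (spK (Y994.KW.pth (1/√((4^n : ℕ) : ℝ)) (fun k => (z n k : ℝ)) (4^n)))
          (spK (V11330.Donsker.res (V · ω)))) atTop (𝓝 0) := by
      have := tend_two.add (tendsto_iff_dist_tendsto_zero.1 hsp)
      rwa [add_zero] at this
    refine squeeze_zero (fun n => Metric.hausdorffDist_nonneg) (fun n => ?_) hd0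
    rw [hd_eq (hc ω) (hz n)]
    refine (dist_triangle _ (spK (Y994.KW.pth (1/√((4^n : ℕ) : ℝ)) (fun k => (z n k : ℝ)) (4^n)))
      _).trans (add_le_add ?_ le_rfl)
    exact dist_wspanK_le (hz n).step (Nat.one_le_pow _ _ (by norm_num))
  · intro ε hε
    rw [ENNReal.tendsto_nhds_zero]
    intro κ hκ
    have hκ3 : 0 < κ/3 := ENNReal.div_pos hκ.ne' (by norm_num)
    -- choose the radius
    obtain ⟨j, hj⟩ := (((ENNReal.tendsto_nhds_zero.1 (OD_prob hBr (half_pos hε))) _ hκ3).exists)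
    set ρ : ℝ := 1/((j:ℝ)+1) with hρ
    have hρ0 : 0 < ρ := by positivity
    -- choose the modulus
    obtain ⟨i, hi⟩ := (((ENNReal.tendsto_nhds_zero.1 (MB_prob (P := P) hm hc
      (half_pos hρ0))) _ hκ3).exists)
    set d : ℝ := 1/((i:ℝ)+1) with hd
    have hd0 : 0 < d := by positivity
    have hη0 : 0 < min (d/4) (1/2) := by positivity
    have e3 := (ENNReal.tendsto_nhds_zero.1 (timing_prob hm hc hB hη0)) _ hκ3
    filter_upwards [e3, an_sq_tendsto.eventually_lt_const (half_pos hd0),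
      tend_two.eventually_lt_const (half_pos hε)] with n g1 g2 g3
    have hsub : P {ω | ε ≤ Metric.hausdorffDist (SpW (pth V ω) n) (SpS (pth V ω))} ≤
        P (({ω | V11330.Donsker.res (V · ω) ∈ OD (ε/2) ρ} ∪ MB V (ρ/2) i) ∪
          TB V (min (d/4) (1/2)) (an n)) := by
      refine measure_mono_ae ?_
      filter_upwards [allKW_ae hm hc hB] with ω h1 h2
      by_contra hcon
      have hcon' : ω ∉ ({ω | V11330.Donsker.res (V · ω) ∈ OD (ε/2) ρ} ∪ MB V (ρ/2) i) ∪
          TB V (min (d/4) (1/2)) (an n) := hcon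
      simp only [mem_union, not_or] at hcon'
      obtain ⟨⟨k1, k2⟩, k3⟩ := hcon'
      obtain ⟨z, hz⟩ := h1 (an n) (an_pos n)
      have hcw : Continuous (pth V ω) := (pp_pth hm hc).cont ω
      have k4 : ∀ k : ℕ, an n ^ 2 * k ≤ 1 → |kt (pth V ω) (an n) k - an n ^ 2 * k| ≤
          2 * min (d/4) (1/2) := by
        intro k hk
        by_contra h5
        exact k3 ⟨k, hk, not_le.1 h5⟩
      have k5 := close_path (hc ω) hz (η := 2 * min (d/4) (1/2)) (d := d) (θ := ρ/2)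
        (by positivity) k4 (not_MB hcw k2)
        (by have := min_le_left (d/4) (1/2 : ℝ); linarith)
        (by have := min_le_right (d/4) (1/2 : ℝ); linarith)
      have h2' : ε ≤ Metric.hausdorffDist (SpW (pth V ω) n) (SpS (pth V ω)) := h2
      rw [hd_eq (hc ω) hz] at h2'
      apply k1
      refine ⟨Y994.KW.pth (1/√((4^n : ℕ) : ℝ)) (fun k => (z k : ℝ)) (4^n),
        V11330.Donsker.res (V · ω), ?_, by rw [dist_self]; exact hρ0, ?_⟩
      · rw [dist_comm]; linarith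
      · have h6 := dist_triangle (wspanK (4^n) z)
          (spK (Y994.KW.pth (1/√((4^n : ℕ) : ℝ)) (fun k => (z k : ℝ)) (4^n)))
          (spK (V11330.Donsker.res (V · ω)))
        have h7 := dist_wspanK_le hz.step (N := 4^n) (Nat.one_le_pow _ _ (by norm_num))
        linarith
    calc _ ≤ _ := hsub
      _ ≤ (κ/3 + κ/3) + κ/3 :=
        (measure_union_le _ _).trans (add_le_add ((measure_union_le _ _).trans (add_le_add hj hi)) g1)
      _ = κ := ENNReal.add_thirds κ

end Pool.Agent.V11191.Knight
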