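import Pool.Agent.V11191.Knight.Bad
import Pool.Agent.V11330.SpanLim

/-!
# Knight's times are uniformly close to the grid; the polygons converge
-/

open Set MeasureTheory Filter Topology ProbabilityTheory
open scoped NNReal ENNReal
open Pool.Agent.V11191.Span

namespace Pool.Agent.V11191.Knight

lemma grid {w : ℝ → ℝ} {a : ℝ} {τ : ℕ → ℝ} {z : ℕ → ℤ} (h : KW w a τ z) {ε : ℝ} (hε : 0 < ε)
    {L : ℕ} (hL : 1 + 2 * ε ≤ L * ε)
    (hg : ∀ l ∈ Finset.Icc 1 L, ∀ i : ℕ, τ i ≤ l * ε → l * ε < τ (i+1) → |a^2 * i - l * ε| < ε)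
    {k : ℕ} (hk : a^2 * k ≤ 1) : |τ k - a^2 * k| ≤ 2 * ε := by
  by_contra hcon
  push Not at hcon
  set t := a^2 * k with ht
  have ht0 : 0 ≤ t := by positivity
  rcases lt_abs.1 hcon with h1 | h1
  · -- τ k > t + 2ε
    have hc1 : (t + ε)/ε ≤ ⌈(t + ε)/ε⌉₊ := Nat.le_ceil _
    have hc2 : (⌈(t + ε)/ε⌉₊ : ℝ) < (t + ε)/ε + 1 := Nat.ceil_lt_add_one (by positivity)
    set l := ⌈(t + ε)/ε⌉₊ with hl
    rw [div_le_iff₀ hε] at hc1
    have hc3 : (l : ℝ) * ε < t + 2 * ε := by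
      have := mul_lt_mul_of_pos_right hc2 hε
      rw [add_mul, div_mul_cancel₀ _ hε.ne'] at this
      linarith
    have hl1 : 1 ≤ l := by
      by_contra h0
      have : l = 0 := by omega
      rw [this] at hc1; simp at hc1; linarith
    have hlL : l ≤ L := by
      have h2 : (l:ℝ) * ε < L * ε := by linarith
      have := lt_of_mul_lt_mul_right h2 hε.le
      exact_mod_cast this.le
    obtain ⟨i, i1, i2⟩ := h.exists_idx (show 0 ≤ (l:ℝ) * ε by positivity)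
    have h3 := hg l (Finset.mem_Icc.2 ⟨hl1, hlL⟩) i i1 i2
    have hik : i < k := by
      rw [← h.mono.lt_iff_lt]; linarith
    have hik' : (i:ℝ) ≤ k := by exact_mod_cast hik.le
    have : a^2 * i ≤ t := mul_le_mul_of_nonneg_left hik' (sq_nonneg a)
    rw [abs_lt] at h3
    linarith [h3.1]
  · -- τ k < t - 2ε
    have hτ := h.nonneg k
    have hf1 : (⌊(t - ε)/ε⌋₊ : ℝ) ≤ (t - ε)/ε := Nat.floor_le (div_nonneg (by linarith) hε.le)
    have hf2 : (t - ε)/ε < ⌊(t - ε)/ε⌋₊ + 1 := Nat.lt_floor_add_one _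
    set l := ⌊(t - ε)/ε⌋₊ with hl
    rw [le_div_iff₀ hε] at hf1
    rw [div_lt_iff₀ hε, add_mul, one_mul] at hf2
    have hl1 : 1 ≤ l := by
      by_contra h0
      have : l = 0 := by omega
      rw [this] at hf2; simp at hf2; linarith
    have hlL : l ≤ L := by
      have h2 : (l:ℝ) * ε < L * ε := by linarith
      have := lt_of_mul_lt_mul_right h2 hε.le
      exact_mod_cast this.le
    obtain ⟨i, i1, i2⟩ := h.exists_idx (show 0 ≤ (l:ℝ) * ε by positivity)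
    have h3 := hg l (Finset.mem_Icc.2 ⟨hl1, hlL⟩) i i1 i2
    have hik : k < i + 1 := by
      rw [← h.mono.lt_iff_lt]; linarith
    have hik' : (k:ℝ) ≤ i := by exact_mod_cast Nat.lt_succ_iff.1 hik
    have : t ≤ a^2 * i := mul_le_mul_of_nonneg_left hik' (sq_nonneg a)
    rw [abs_lt] at h3
    linarith [h3.2]

variable {Ω : Type*} [mΩ : MeasurableSpace Ω] {P : Measure Ω} {V : ℝ≥0 → Ω → ℝ}

/-- all the Knight walks exist -/
def AllKW (w : ℝ → ℝ) : Prop := ∀ a > 0, ∃ z : ℕ → ℤ, KW w a (kt w a) z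

lemma allKW_ae (hm : ∀ t, Measurable (V t)) (hc : ∀ ω, Continuous (V · ω))
    (hB : IsPreBrownianReal V P) : ∀ᵐ ω ∂P, AllKW (pth V ω) := by
  filter_upwards [unb_ae hm hB, hB.eval_zero_ae_eq_zero] with ω h3 h4 a ha
  have hcw : Continuous (pth V ω) := (pp_pth hm hc).cont ω
  have hw0 : pth V ω 0 = 0 := by unfold pth; rw [Real.toNNReal_zero]; exact h4
  exact exists_KW hcw h3 hw0 ha

/-- the timing is bad -/
def TB (V : ℝ≥0 → Ω → ℝ) (ε a : ℝ) : Set Ω :=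
  {ω | ∃ k : ℕ, a^2 * k ≤ 1 ∧ 2 * ε < |kt (pth V ω) a k - a^2 * k|}

lemma timing_bound (hm : ∀ t, Measurable (V t)) (hc : ∀ ω, Continuous (V · ω))
    (hB : IsPreBrownianReal V P) {ε : ℝ} (hε : 0 < ε) :
    ∃ C : ℝ, 0 ≤ C ∧ ∀ a > 0, 6 * a^2 ≤ ε → P (TB V ε a) ≤ ENNReal.ofReal (C * a^2) := by
  obtain ⟨L, hL⟩ := exists_nat_gt ((1 + 2 * ε)/ε)
  rw [div_lt_iff₀ hε] at hL
  refine ⟨∑ l ∈ Finset.Icc 1 L, 32 * (l * ε) / ε^2, Finset.sum_nonneg fun l _ => by positivity,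
    fun a ha h6 => ?_⟩
  have hsub : P (TB V ε a) ≤ P (⋃ l ∈ Finset.Icc 1 L, {ω | ∃ i : ℕ, kt (pth V ω) a i ≤ l * ε ∧
      l * ε < kt (pth V ω) a (i+1) ∧ ε ≤ |a^2 * i - l * ε|}) := by
    refine measure_mono_ae ?_
    filter_upwards [allKW_ae hm hc hB] with ω h1 h2
    obtain ⟨k, k1, k2⟩ := h2
    obtain ⟨z, hz⟩ := h1 a ha
    by_contra hcon
    refine absurd (grid hz hε hL.le ?_ k1) (not_le.2 k2)
    intro l hl i i1 i2
    by_contra h3
    apply hcon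
    show ω ∈ ⋃ l ∈ Finset.Icc 1 L, {ω | ∃ i : ℕ, kt (pth V ω) a i ≤ l * ε ∧
      l * ε < kt (pth V ω) a (i+1) ∧ ε ≤ |a^2 * i - l * ε|}
    simp only [mem_iUnion, mem_ofPred_eq]
    exact ⟨l, hl, i, i1, i2, not_lt.1 h3⟩
  refine hsub.trans ((measure_biUnion_finset_le _ _).trans ?_)
  rw [Finset.sum_mul, ENNReal.ofReal_sum_of_nonneg fun l _ => by positivity]
  refine Finset.sum_le_sum fun l hl => ?_
  have hl1 : (1:ℝ) ≤ l := by exact_mod_cast (Finset.mem_Icc.1 hl).1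
  have ha2 : 0 < a^2 := by positivity
  refine (prob_bad hm hc hB ha (T := l * ε) (ε := ε) (by positivity) (by linarith)).trans ?_
  refine ENNReal.ofReal_le_ofReal ?_
  have h7 : ε / 2 ≤ ε - 3 * a^2 := by linarith
  have h8 : (ε/2)^2 ≤ (ε - 3 * a^2)^2 := pow_le_pow_left₀ (by positivity) h7 2
  calc 8 * a^2 * (l * ε) / (ε - 3 * a^2)^2 ≤ 8 * a^2 * (l * ε) / (ε/2)^2 := by
        refine div_le_div_of_nonneg_left (by positivity) (by positivity) h8
    _ = 32 * (l * ε) / ε^2 * a^2 := by field_simp; ring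

/-- mesh `2^{-n}` -/
noncomputable def an (n : ℕ) : ℝ := 1 / 2^n

lemma an_pos (n : ℕ) : 0 < an n := by unfold an; positivity

lemma an_sq (n : ℕ) : an n ^ 2 = (1/4)^n := by
  unfold an
  rw [← one_div_pow, ← pow_mul, mul_comm, pow_mul]; norm_num

lemma an_sq_tendsto : Tendsto (fun n => an n ^ 2) atTop (𝓝 0) := by
  simp_rw [an_sq]
  exact tendsto_pow_atTop_nhds_zero_of_lt_one (by norm_num) (by norm_num)

lemma timing_prob (hm : ∀ t, Measurable (V t)) (hc : ∀ ω, Continuous (V · ω))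
    (hB : IsPreBrownianReal V P) {ε : ℝ} (hε : 0 < ε) :
    Tendsto (fun n => P (TB V ε (an n))) atTop (𝓝 0) := by
  obtain ⟨C, hC, h⟩ := timing_bound hm hc hB hε
  have h1 : Tendsto (fun n => ENNReal.ofReal (C * an n ^ 2)) atTop (𝓝 0) := by
    rw [← ENNReal.ofReal_zero]
    refine ENNReal.tendsto_ofReal ?_
    rw [← mul_zero C]
    exact an_sq_tendsto.const_mul C
  refine tendsto_of_tendsto_of_tendsto_of_le_of_le' tendsto_const_nhds h1
    (Eventually.of_forall fun n => bot_le) ?_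
  filter_upwards [an_sq_tendsto.eventually_lt_const (show 0 < ε/6 by positivity)] with n hn
  exact h (an n) (an_pos n) (by linarith)

lemma timing_as (hm : ∀ t, Measurable (V t)) (hc : ∀ ω, Continuous (V · ω))
    (hB : IsPreBrownianReal V P) :
    ∀ᵐ ω ∂P, ∀ ε > 0, ∀ᶠ n in atTop, ∀ k : ℕ, an n ^ 2 * k ≤ 1 →
      |kt (pth V ω) (an n) k - an n ^ 2 * k| ≤ 2 * ε := by
  have key : ∀ ε > 0, ∀ᵐ ω ∂P, ∀ᶠ n in atTop, ω ∉ TB V ε (an n) := by
    intro ε hε
    obtain ⟨C, hC, h⟩ := timing_bound hm hc hB hε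
    obtain ⟨n0, hn0⟩ := eventually_atTop.1
      (an_sq_tendsto.eventually_lt_const (show 0 < ε/6 by positivity))
    have hsum : ∑' n, P (TB V ε (an (n + n0))) ≠ ∞ := by
      have h2 : Summable (fun n : ℕ => C * (1/4 : ℝ)^n) :=
        (summable_geometric_of_lt_one (by norm_num) (by norm_num)).mul_left C
      have h3 : ∑' n : ℕ, ENNReal.ofReal (C * (1/4 : ℝ)^n) ≠ ∞ := h2.tsum_ofReal_ne_top
      refine ne_top_of_le_ne_top h3 (ENNReal.tsum_le_tsum fun n => ?_)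
      refine (h _ (an_pos _) (by linarith [hn0 (n + n0) (Nat.le_add_left _ _)])).trans ?_
      refine ENNReal.ofReal_le_ofReal (mul_le_mul_of_nonneg_left ?_ hC)
      rw [an_sq]
      exact pow_le_pow_of_le_one (by norm_num) (by norm_num) (Nat.le_add_right _ _)
    filter_upwards [ae_eventually_notMem hsum] with ω hω
    rw [eventually_atTop] at hω ⊢
    obtain ⟨N, hN⟩ := hω
    refine ⟨N + n0, fun n hn => ?_⟩
    have := hN (n - n0) (by omega)
    rwa [Nat.sub_add_cancel (by omega)] at this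
  have key2 : ∀ᵐ ω ∂P, ∀ j : ℕ, ∀ᶠ n in atTop, ω ∉ TB V (1/((j:ℝ)+1)) (an n) := by
    rw [ae_all_iff]; exact fun j => key _ (by positivity)
  filter_upwards [key2] with ω hω ε hε
  obtain ⟨j, hj⟩ := exists_nat_one_div_lt hε
  filter_upwards [hω j] with n hn k hk
  by_contra hcon
  push Not at hcon
  exact hn ⟨k, hk, by linarith⟩

/-! ### closeness of the polygon -/

open Pool.Agent.Y473.KW in
lemma close {w : ℝ → ℝ} {a : ℝ} {τ : ℕ → ℝ} {z : ℕ → ℤ} (h : KW w a τ z) {N : ℕ} (hN : 1 ≤ N)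
    (ha : a = 1/√N) {η d θ : ℝ} (h1 : ∀ k ≤ N, |τ k - k/N| ≤ η)
    (h2 : ∀ u ∈ Icc (0:ℝ) 2, ∀ v ∈ Icc (0:ℝ) 2, |u - v| < d → |w u - w v| ≤ θ)
    (h3 : η + 1/N < d) (h4 : η ≤ 1) (x : unitInterval) :
    |Y994.KW.pth (1/√N) (fun k => (z k : ℝ)) N x - w x| ≤ θ := by
  have hN0 : (0:ℝ) < N := by exact_mod_cast hN
  have hx0 := x.2.1
  have hx1 := x.2.2
  have node : ∀ k ≤ N, |(x:ℝ) - k/N| ≤ 1/N → |a * z k - w x| ≤ θ := by
    intro k hk hkx
    rw [← h.lev]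
    have h5 := h1 k hk
    have h6 := abs_le.1 h5
    have hk1 : (k:ℝ)/N ≤ 1 := (div_le_one hN0).2 (by exact_mod_cast hk)
    refine h2 _ ⟨h.nonneg k, by linarith [h6.2]⟩ _ ⟨hx0, by linarith⟩ ?_
    have : |τ k - x| ≤ |τ k - k/N| + |(k:ℝ)/N - x| := abs_sub_le _ _ _
    rw [abs_sub_comm ((k:ℝ)/N)] at this
    linarith
  rw [pth_eq, ← ha]
  set y := (x:ℝ) * N with hy
  have hy0 : 0 ≤ y := mul_nonneg hx0 hN0.le
  have hyN : y ≤ N := by
    have := mul_le_mul_of_nonneg_right hx1 hN0.le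
    rwa [one_mul] at this
  rcases hyN.eq_or_lt with hy1 | hy1
  · rw [S_of_le (fun k => (z k : ℝ)) y N hy1.ge]
    refine node N le_rfl ?_
    have : (x:ℝ) = 1 := by
      have : (x:ℝ) * N = 1 * N := by rw [one_mul]; exact hy1
      exact mul_right_cancel₀ hN0.ne' this
    rw [this, div_self hN0.ne', sub_self, abs_zero]; positivity
  · have f1 : ((⌊y⌋₊ : ℕ) : ℝ) ≤ y := Nat.floor_le hy0
    have f2 : y < (⌊y⌋₊ : ℕ) + 1 := Nat.lt_floor_add_one y
    have f3 : ⌊y⌋₊ + 1 ≤ N := by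
      have : ((⌊y⌋₊ : ℕ) : ℝ) < N := lt_of_le_of_lt f1 hy1
      exact_mod_cast this
    rw [S_of_lt (fun k => (z k : ℝ)) y ⌊y⌋₊ f1 f2 N f3]
    set k := ⌊y⌋₊ with hk
    have hxy : (x:ℝ) = y / N := by rw [hy]; field_simp
    have n1 := node k (by omega) (by
      rw [hxy, ← sub_div, abs_div, abs_of_pos hN0]
      refine div_le_div_of_nonneg_right ?_ hN0.le
      rw [abs_le]; constructor <;> linarith)
    have n2 := node (k+1) f3 (by
      rw [hxy, ← sub_div, abs_div, abs_of_pos hN0]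
      refine div_le_div_of_nonneg_right ?_ hN0.le
      rw [abs_le]; push_cast; constructor <;> linarith)
    set l := y - k with hl
    have hl0 : 0 ≤ l := by linarith
    have hl1 : l ≤ 1 := by linarith
    have e : a * ((z k : ℝ) + l * ((z (k+1) : ℝ) - z k)) - w x =
        (1 - l) * (a * z k - w x) + l * (a * z (k+1) - w x) := by ring
    rw [e]
    rw [abs_le] at n1 n2 ⊢
    have m0 : 0 ≤ 1 - l := by linarith
    constructor
    · nlinarith [mul_le_mul_of_nonneg_left n1.1 m0, mul_le_mul_of_nonneg_left n2.1 hl0]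
    · nlinarith [mul_le_mul_of_nonneg_left n1.2 m0, mul_le_mul_of_nonneg_left n2.2 hl0]

end Pool.Agent.V11191.Knight
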