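import Pool.Agent.V11191.Knight.Det

/-!
# The sampled walk tracks the Knight walk
-/

open Set Filter Topology

namespace Pool.Agent.V11191.Knight

variable {w : ℝ → ℝ} {a : ℝ} {τ : ℕ → ℝ} {z : ℕ → ℤ}

/-- the path exceeds each level immediately after reaching it -/
def Exceed (w : ℝ → ℝ) (a : ℝ) (τ : ℕ → ℝ) (z : ℕ → ℤ) : Prop :=
  ∀ k, ∀ ε > 0, ∃ r, τ (k + 1) < r ∧ r < τ (k + 1) + ε ∧ a < |w r - a * z k|

/-- reading a value in the next cell -/
lemma st_move {a : ℝ} (ha : 0 < a) {c c' : ℤ} {n : ℕ} {y : ℝ} (hc : c' - c = 1 ∨ c' - c = -1)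
    (h1 : a ≤ |y - a * c|) (h2 : |y - a * c'| < a) : st a (c, n) y = (c', n + 1) := by
  rw [abs_lt] at h2
  rcases hc with hc | hc
  · have e : (c' : ℝ) = c + 1 := by
      have : ((c' - c : ℤ) : ℝ) = 1 := by rw [hc]; simp
      push_cast at this; linarith
    rw [e] at h2
    have h3 : a ≤ y - a * c := by
      rcases le_abs.1 h1 with h | h
      · exact h
      · nlinarith
    unfold st
    rw [if_pos (by simpa using h3)]
    simp only [Prod.mk.injEq, and_true]
    omega
  · have e : (c' : ℝ) = c - 1 := by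
      have : ((c' - c : ℤ) : ℝ) = -1 := by rw [hc]; simp
      push_cast at this; linarith
    rw [e] at h2
    have h3 : y - a * c ≤ -a := by
      rcases le_abs.1 h1 with h | h
      · nlinarith
      · linarith
    unfold st
    rw [if_neg (by simp only; linarith), if_pos (by simpa using h3)]
    simp only [Prod.mk.injEq, and_true]
    omega

/-- tracking for one mesh -/
lemma track_mesh (h : KW w a τ z) {T δ : ℝ} (hδ : 0 < δ)
    (hgap : ∀ i, τ i ≤ T → δ < τ (i + 1) - τ i)
    (hdet : ∀ i, τ (i + 1) < T → ∃ j : ℕ, τ (i + 1) < j * δ ∧ j * δ < τ (i + 2) ∧ j * δ < T ∧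
      a < |w (j * δ) - a * z i|) (j : ℕ) :
    (j : ℝ) * δ ≤ T → ∀ i, τ i ≤ j * δ → j * δ < τ (i + 1) →
      hs a (fun j => w (j * δ)) j = (z i, i) ∨
      ∃ i', i = i' + 1 ∧ hs a (fun j => w (j * δ)) j = (z i', i') ∧
        ∀ j' ≤ j, τ i ≤ j' * δ → |w (j' * δ) - a * z i'| < a := by
  induction j with
  | zero =>
    intro _ i h1 h2
    have hi : i = 0 := by
      by_contra hne
      have h3 : τ 0 < τ i := h.mono (Nat.pos_of_ne_zero hne)
      rw [h.τ0] at h3
      simp only [Nat.cast_zero, zero_mul] at h1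
      linarith
    subst hi
    left
    simp [hs, h.z0]
  | succ j ih =>
    intro hjT i h1 h2
    set x : ℕ → ℝ := fun j => w (j * δ) with hx
    have ht : ((j + 1 : ℕ) : ℝ) * δ = j * δ + δ := by push_cast; ring
    have htj0 : (0:ℝ) ≤ j * δ := by positivity
    have hjT' : (j : ℝ) * δ ≤ T := by rw [ht] at hjT; linarith
    obtain ⟨i0, hi1, hi2⟩ := h.exists_idx htj0
    have hsucc : hs a x (j + 1) = st a (hs a x j) (w ((j + 1 : ℕ) * δ)) := rfl
    have hle : i0 ≤ i := by
      have : τ i0 < τ (i + 1) := by rw [ht] at h2; linarith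
      have := h.mono.lt_iff_lt.1 this
      omega
    have hle2 : i ≤ i0 + 1 := by
      by_contra hcon
      push Not at hcon
      have h3 : τ (i0 + 2) ≤ τ i := h.mono.monotone hcon
      have h4 : τ (i0 + 1) ≤ T := by
        have : τ (i0 + 1) ≤ τ (i0 + 2) := (h.lt _).le
        linarith
      have h5 := hgap (i0 + 1) h4
      rw [ht] at h1
      have h6 : τ (i0 + 1 + 1) = τ (i0 + 2) := rfl
      rw [h6] at h5
      linarith
    have hnew : |w ((j + 1 : ℕ) * δ) - a * z i| < a := h.stay i _ h1 h2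
    rcases ih hjT' i0 hi1 hi2 with hS | ⟨i', rfl, hS, hno⟩
    · -- detected state
      rcases Nat.lt_or_ge i (i0 + 1) with hcase | hcase
      · have hii : i = i0 := by omega
        subst hii
        left
        rw [hsucc, hS]
        exact st_stay hnew
      · have hii : i = i0 + 1 := by omega
        subst hii
        by_cases hexc : a ≤ |w ((j + 1 : ℕ) * δ) - a * z i0|
        · left
          rw [hsucc, hS]
          exact st_move h.pos (h.step i0) hexc hnew
        · right
          refine ⟨i0, rfl, ?_, ?_⟩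
          · rw [hsucc, hS]; exact st_stay (not_le.1 hexc)
          · intro j' hj' hτ
            rcases Nat.lt_or_ge j' (j + 1) with h3 | h3
            · exfalso
              have h4 : (j' : ℝ) ≤ j := by exact_mod_cast Nat.lt_succ_iff.1 h3
              have h5 : (j' : ℝ) * δ ≤ j * δ := mul_le_mul_of_nonneg_right h4 hδ.le
              linarith
            · have h4 : j' = j + 1 := le_antisymm hj' h3
              subst h4
              exact not_le.1 hexc
    · -- undetected state
      rcases Nat.lt_or_ge i (i' + 1 + 1) with hcase | hcase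
      · have hii : i = i' + 1 := by omega
        subst hii
        by_cases hexc : a ≤ |w ((j + 1 : ℕ) * δ) - a * z i'|
        · left
          rw [hsucc, hS]
          exact st_move h.pos (h.step i') hexc hnew
        · right
          refine ⟨i', rfl, ?_, ?_⟩
          · rw [hsucc, hS]; exact st_stay (not_le.1 hexc)
          · intro j' hj' hτ
            rcases Nat.lt_or_ge j' (j + 1) with h3 | h3
            · exact hno j' (Nat.lt_succ_iff.1 h3) hτ
            · have h4 : j' = j + 1 := le_antisymm hj' h3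
              subst h4
              exact not_le.1 hexc
      · exfalso
        have hii : i = i' + 1 + 1 := by omega
        subst hii
        have h3 : τ (i' + 1) < T := by
          have := h.lt (i' + 1)
          linarith
        obtain ⟨j', d1, d2, _, d4⟩ := hdet i' h3
        have h4 : (j' : ℝ) * δ < (j + 1 : ℕ) * δ := lt_of_lt_of_le d2 h1
        have h5 : (j' : ℝ) < ((j + 1 : ℕ) : ℝ) := lt_of_mul_lt_mul_right h4 hδ.le
        have h6 : j' ≤ j := by
          have : j' < j + 1 := by exact_mod_cast h5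
          omega
        have := hno j' h6 d1.le
        linarith

/-- the sampled walk has the right number of steps, for fine meshes -/
theorem track (h : KW w a τ z) (hex : Exceed w a τ z) {T : ℝ} (hT : 0 < T) :
    ∀ᶠ m : ℕ in atTop, ∀ i, τ i ≤ T → T < τ (i + 1) →
      (hs a (fun j => w (j * (T / m))) m).2 = i ∨
      (τ i = T ∧ (hs a (fun j => w (j * (T / m))) m).2 + 1 = i) := by
  obtain ⟨K, hK⟩ := h.unb T
  -- a mesh bound for each index
  have hμ : ∀ i, ∃ μ > 0, μ < τ (i + 1) - τ i ∧ (τ (i + 1) < T → ∃ p, τ (i + 1) < p ∧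
      p + μ < τ (i + 2) ∧ p + μ < T ∧ ∀ r, p ≤ r → r ≤ p + μ → a < |w r - a * z i|) := by
    intro i
    have hg : 0 < τ (i + 1) - τ i := sub_pos.2 (h.lt i)
    by_cases hi : τ (i + 1) < T
    · have hm : 0 < min (τ (i + 2)) T - τ (i + 1) := sub_pos.2 (lt_min (h.lt (i+1)) hi)
      obtain ⟨r, r1, r2, r3⟩ := hex i _ hm
      have r2' : r < min (τ (i + 2)) T := by linarith
      have hev : ∀ᶠ s in 𝓝 r, a < |w s - a * z i| := by
        have hcw := h.cont
        have : ContinuousAt (fun s => |w s - a * z i|) r := by fun_prop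
        exact this.eventually_const_lt r3
      obtain ⟨ρ, hρ, hball⟩ := Metric.eventually_nhds_iff.1 hev
      set μ := min (ρ/2) (min ((min (τ (i + 2)) T - r)/2) ((τ (i + 1) - τ i)/2)) with hμdef
      have hμ0 : 0 < μ := by
        refine lt_min (by positivity) (lt_min ?_ (by positivity))
        linarith
      have b1 : μ ≤ ρ/2 := min_le_left _ _
      have b2 : μ ≤ (min (τ (i + 2)) T - r)/2 := (min_le_right _ _).trans (min_le_left _ _)
      have b3 : μ ≤ (τ (i + 1) - τ i)/2 := (min_le_right _ _).trans (min_le_right _ _)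
      refine ⟨μ, hμ0, by linarith, fun _ => ⟨r, r1, ?_, ?_, ?_⟩⟩
      · have := min_le_left (τ (i + 2)) T; linarith
      · have := min_le_right (τ (i + 2)) T; linarith
      · intro s hs1 hs2
        exact hball (by rw [Real.dist_eq, abs_lt]; constructor <;> linarith)
    · exact ⟨(τ (i + 1) - τ i)/2, by positivity, by linarith, fun h' => absurd h' hi⟩
  choose μ hμ0 hμ1 hμ2 using hμ
  -- minimum over i ≤ K
  obtain ⟨ν, hν0, hν⟩ : ∃ ν > 0, ∀ i ≤ K, ν ≤ μ i := by
    clear hK
    induction K with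
    | zero => exact ⟨μ 0, hμ0 0, fun i hi => by rw [Nat.le_zero.1 hi]⟩
    | succ K ih =>
      obtain ⟨ν, h1, h2⟩ := ih
      refine ⟨min ν (μ (K + 1)), lt_min h1 (hμ0 _), fun i hi => ?_⟩
      rcases Nat.lt_or_ge i (K + 1) with h3 | h3
      · exact (min_le_left _ _).trans (h2 i (Nat.lt_succ_iff.1 h3))
      · rw [le_antisymm hi h3]; exact min_le_right _ _
  have hev : ∀ᶠ m : ℕ in atTop, T / m < ν := by
    have : Tendsto (fun m : ℕ => T / (m:ℝ)) atTop (𝓝 0) := tendsto_const_div_atTop_nhds_zero_nat T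
    exact this.eventually_lt_const hν0
  filter_upwards [hev, eventually_gt_atTop 0] with m hm hm0 i hi1 hi2
  have hm0' : (0:ℝ) < m := by exact_mod_cast hm0
  set δ := T / m with hδ
  have hδ0 : 0 < δ := by positivity
  have hidx : ∀ i, τ i ≤ T → i ≤ K := by
    intro i hi
    have : τ i < τ K := lt_of_le_of_lt hi hK
    exact (h.mono.lt_iff_lt.1 this).le
  have hdet : ∀ i, τ (i + 1) < T → ∃ j : ℕ, τ (i + 1) < j * δ ∧ j * δ < τ (i + 2) ∧ j * δ < T ∧
      a < |w (j * δ) - a * z i| := by
    intro i hi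
    obtain ⟨p, p1, p2, p3, p4⟩ := hμ2 i hi
    have hiK : i ≤ K := hidx i ((h.lt i).le.trans hi.le)
    have hp0 : 0 < p := lt_of_le_of_lt (h.nonneg _) p1
    have hc1 : p / δ ≤ ⌈p/δ⌉₊ := Nat.le_ceil _
    have hc2 : (⌈p/δ⌉₊ : ℝ) < p/δ + 1 := Nat.ceil_lt_add_one (by positivity)
    rw [div_le_iff₀ hδ0] at hc1
    have hc3 : (⌈p/δ⌉₊ : ℝ) * δ < p + δ := by
      have := mul_lt_mul_of_pos_right hc2 hδ0
      rw [add_mul, div_mul_cancel₀ _ hδ0.ne', one_mul] at this
      exact this
    have hν' := hν i hiK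
    exact ⟨⌈p/δ⌉₊, by linarith, by linarith, by linarith, p4 _ hc1 (by linarith)⟩
  have hmT : (m:ℝ) * δ = T := by rw [hδ]; field_simp
  have hgap : ∀ i, τ i ≤ T → δ < τ (i + 1) - τ i := by
    intro i hi
    have := hν i (hidx i hi)
    have := hμ1 i
    linarith
  have hmain := track_mesh h hδ0 hgap hdet m hmT.le i (by rw [hmT]; exact hi1)
    (by rw [hmT]; exact hi2)
  rcases hmain with hS | ⟨i', rfl, hS, hno⟩
  · left; rw [hS]
  · right
    refine ⟨?_, by rw [hS]⟩
    by_contra hne
    have hlt : τ (i' + 1) < T := lt_of_le_of_ne hi1 hne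
    obtain ⟨j', d1, d2, d3, d4⟩ := hdet i' hlt
    have h5 : (j' : ℝ) * δ < m * δ := by rw [hmT]; exact d3
    have h6 : (j' : ℝ) < m := lt_of_mul_lt_mul_right h5 hδ0.le
    have := hno j' (by exact_mod_cast h6.le) d1.le
    linarith

end Pool.Agent.V11191.Knight
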